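import Pool.Agent.H89.OD.L.H908R3_Disc_Cases

/-! The case `b = 2π/3`, `c = π/3`. -/

set_option autoImplicit false

namespace Pool.Agent.H908R3.Disc

open Complex ComplexConjugate

theorem caseT_aux {b : ℝ} {g gi : ℂ → ℂ} {L1 L2 L3 : ℂ → Prop} {D : ℂ}
    (h : Cfg b g gi L1 L2 L3) (hb : b = 2 * Real.pi / 3) (h0 : gi 0 = D)
    (h1 : gi (E (-b) * D) = 0) : False := by
  have n1 : ¬ L1 0 := by
    intro h2
    have h3 := h.r12 0 h2
    rw [mul_zero] at h3
    exact h.n12 0 h2 h3
  have n2 : ¬ L2 0 := by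
    intro h2
    have h3 := h.r21 0 h2
    rw [mul_zero] at h3
    exact n1 h3
  have hL3 : L3 0 := by
    rcases h.cov 0 (by simp) with h2 | h2 | h2
    · exact absurd h2 n1
    · exact absurd h2 n2
    · exact h2
  have hD : L1 D := by
    have h2 := h.g31 0 hL3
    rwa [h0] at h2
  have hDn := h.in1 D hD
  have hE1 : E b * (E (-b) * D) = D := by
    rw [← mul_assoc, E_mul, add_neg_cancel, E_zero, one_mul]
  have hE2 : E (-b) * (E (-b) * D) = E b * D := by
    rw [← mul_assoc, E_mul]
    congr 1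
    rw [← E_two_pi (-b + -b), hb]
    congr 1
    ring
  rcases h.cov (E (-b) * D) (by rw [norm_E_mul]; exact hDn) with h2 | h2 | h2
  · have h3 := h.r12 _ h2
    rw [hE1] at h3
    exact h.n12 D hD h3
  · have h3 := h.r21 _ h2
    rw [hE2] at h3
    exact h.n12 _ h3 (h.r12 D hD)
  · have h3 := h.g31 _ h2
    rw [h1] at h3
    exact n1 h3

theorem caseT : CaseT := by
  intro o b c e L1 L2 L3 h hb hc
  have hbc : E (b + c) = -1 := by
    have h1 : b + c = Real.pi := by rw [hb, hc]; ring
    rw [h1, E_pi]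
  have hbc' : E (-c + -b) = -1 := by
    rw [← E_two_pi]
    have h1 : -c + -b + 2 * Real.pi = Real.pi := by rw [hb, hc]; ring
    rw [h1, E_pi]
  unfold CfgO at h
  cases o with
  | true =>
    simp only [if_true] at h
    refine caseT_aux (D := ((2 * Real.sin (e/2) : ℝ) : ℂ)) h hb ?_ ?_
    · simp [giP]
    · simp only [giP]
      rw [← mul_assoc, E_mul, hbc']
      ring
  | false =>
    simp only [Bool.false_eq_true, if_false] at h
    refine caseT_aux (D := ((2 * Real.sin (e/2) : ℝ) : ℂ)) h hb ?_ ?_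
    · simp [giR]
    · simp only [giR]
      rw [map_mul, conj_E, neg_neg, Complex.conj_ofReal, ← mul_assoc, E_mul, add_comm c b, hbc]
      ring

end Pool.Agent.H908R3.Disc
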