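import Pool.Agent.H89.OD.L.H908R3_Disc_Defs

/-! Task A (helper449): transfer from `EuclideanSpace ℝ (Fin 2)` to `ℂ`. -/

set_option autoImplicit false

namespace Pool.Agent.H908R3.Disc

open Complex ComplexConjugate

theorem isIso_of_isometryEquiv (F : ℂ ≃ᵢ ℂ) : IsIso F := by
  set L := F.toRealLinearIsometryEquiv with hL
  have h1 : ∀ x, F x = L x + F 0 := by
    intro x
    rw [hL, IsometryEquiv.toRealLinearIsometryEquiv_apply]
    ring
  obtain ⟨a, ha⟩ := linear_isometry_complex L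
  refine ⟨(a : ℂ), F 0, a.norm_coe, ?_⟩
  rcases ha with ha | ha
  · left
    intro x
    rw [h1 x, ha, rotation_apply]
  · right
    intro x
    rw [h1 x, ha, LinearIsometryEquiv.trans_apply, rotation_apply]
    rfl

theorem taskA : TaskA := by
  rintro hCore ⟨A, B, C, hU, hAB, hAC, hBC, ⟨f, hf⟩, ⟨g, hg⟩⟩
  set φ : ℂ ≃ₗᵢ[ℝ] EuclideanSpace ℝ (Fin 2) := Complex.orthonormalBasisOneI.repr with hφ
  have hinj : Function.Injective φ.symm := φ.symm.injective
  have key : ∀ (f : EuclideanSpace ℝ (Fin 2) ≃ᵢ EuclideanSpace ℝ (Fin 2)),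
      ((φ.toIsometryEquiv.trans (f.trans φ.symm.toIsometryEquiv) : ℂ ≃ᵢ ℂ) : ℂ → ℂ) ''
        (φ.symm '' A) = φ.symm '' (f '' A) := by
    intro f
    rw [Set.image_image, Set.image_image]
    apply Set.image_congr
    intro x _
    simp
  apply hCore (φ.symm '' A) (φ.toIsometryEquiv.trans (f.trans φ.symm.toIsometryEquiv) : ℂ ≃ᵢ ℂ)
    (φ.toIsometryEquiv.trans (g.trans φ.symm.toIsometryEquiv) : ℂ ≃ᵢ ℂ)
    (isIso_of_isometryEquiv _) (isIso_of_isometryEquiv _)
  refine ⟨?_, ?_, ?_, ?_⟩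
  · rw [key f, key g, hf, hg, ← Set.image_union, ← Set.image_union, hU]
    have := φ.symm.image_closedBall (0 : EuclideanSpace ℝ (Fin 2)) 1
    rw [this, map_zero]
  · rw [key f, hf]
    exact (Set.disjoint_image_iff hinj).2 hAB
  · rw [key g, hg]
    exact (Set.disjoint_image_iff hinj).2 hAC
  · rw [key f, key g, hf, hg]
    exact (Set.disjoint_image_iff hinj).2 hBC

end Pool.Agent.H908R3.Disc
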