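import Pool.Agent.H89.OD.L.H908R3_Disc_Defs

set_option autoImplicit false

namespace Pool.Agent.H908R3.Disc.TB

open Complex ComplexConjugate MeasureTheory

/-- closed cone condition -/
def Dv (v : ℂ) : Set ℂ := {z | ‖z‖ * ‖v‖ ^ 2 / 2 ≤ (z * conj v).re}

/-- the punctured open disc -/
def Bo : Set ℂ := {z | z ≠ 0 ∧ ‖z‖ < 1}

theorem isClosed_Dv (v : ℂ) : IsClosed (Dv v) := by
  refine isClosed_le (by fun_prop) ?_
  exact Complex.continuous_re.comp (by fun_prop)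

theorem isOpen_Bo : IsOpen Bo := by
  have h : Bo = {z | z ≠ 0} ∩ {z | ‖z‖ < 1} := rfl
  rw [h]
  exact isOpen_ne.inter (isOpen_lt continuous_norm continuous_const)

theorem Bo_finite : volume Bo ≠ ⊤ := by
  have h : Bo ⊆ Metric.ball (0 : ℂ) 1 := by
    intro z hz
    simpa using hz.2
  exact ne_top_of_le_ne_top measure_ball_lt_top.ne (measure_mono h)

theorem mem_Dv {w v : ℂ} (hw : ‖w‖ = 1) (h : ‖w - v‖ ≤ 1) {r : ℝ} (hr : 0 < r) :
    (r : ℂ) * w ∈ Dv v := by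
  have h1 := Complex.normSq_sub w v
  rw [Complex.normSq_eq_norm_sq, Complex.normSq_eq_norm_sq, Complex.normSq_eq_norm_sq, hw] at h1
  have h2 : ‖w - v‖ ^ 2 ≤ 1 := by
    have := norm_nonneg (w - v)
    nlinarith
  have h3 : ‖v‖ ^ 2 / 2 ≤ (w * conj v).re := by linarith
  show ‖(r : ℂ) * w‖ * ‖v‖ ^ 2 / 2 ≤ ((r : ℂ) * w * conj v).re
  have e : ((r : ℂ) * w * conj v).re = r * (w * conj v).re := by
    rw [mul_assoc, Complex.re_ofReal_mul]
  rw [e, norm_mul, hw, Complex.norm_real, Real.norm_eq_abs, abs_of_pos hr]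
  have := mul_le_mul_of_nonneg_left h3 hr.le
  linarith

theorem pos_of_mem {z v : ℂ} (hz : z ≠ 0) (hv : v ≠ 0) (h : z ∈ Dv v) : 0 < (z * conj v).re := by
  have h1 : 0 < ‖z‖ := norm_pos_iff.2 hz
  have h2 : 0 < ‖v‖ := norm_pos_iff.2 hv
  have h3 : 0 < ‖z‖ * ‖v‖ ^ 2 / 2 := by positivity
  exact lt_of_lt_of_le h3 h

theorem exists_lin {F : ℂ → ℂ} {q : ℂ} (hF : IsIso F) (h0 : F q = 0) :
    ∃ L : ℂ ≃ₗᵢ[ℝ] ℂ, ∀ x, F x = L (x - q) := by
  obtain ⟨u, t, hu, h⟩ := hF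
  have hmem : u ∈ Submonoid.unitSphere ℂ := mem_sphere_zero_iff_norm.2 hu
  have e : ∀ z : ℂ, rotation (⟨u, hmem⟩ : Circle) z = u * z := fun z => rotation_apply _ _
  rcases h with h | h
  · refine ⟨rotation (⟨u, hmem⟩ : Circle), fun x => ?_⟩
    rw [e, h x]
    rw [h q] at h0
    linear_combination h0
  · refine ⟨conjLIE.trans (rotation (⟨u, hmem⟩ : Circle)), fun x => ?_⟩
    rw [LinearIsometryEquiv.trans_apply, e, h x, conjLIE_apply, map_sub]
    rw [h q] at h0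
    linear_combination h0

theorem vol_image (L : ℂ ≃ₗᵢ[ℝ] ℂ) {V : Set ℂ} (hV : MeasurableSet V) :
    volume (L '' V) = volume V := by
  have h : L '' V = L.symm ⁻¹' V := by
    exact L.toEquiv.image_eq_preimage_symm V
  rw [h]
  exact (L.symm.measurePreserving).measure_preimage hV.nullMeasurableSet

theorem taskB : TaskB := by
  intro A F G q2 q3 hF hG hF0 hG0 hcov h2 h3 h23
  obtain ⟨LF, hLF⟩ := exists_lin hF hF0
  obtain ⟨LG, hLG⟩ := exists_lin hG hG0
  have hA : ∀ x ∈ A, ‖x‖ ≤ 1 ∧ ‖x - q2‖ ≤ 1 ∧ ‖x - q3‖ ≤ 1 := by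
    intro x hx
    refine ⟨?_, ?_, ?_⟩
    · have : x ∈ Metric.closedBall (0 : ℂ) 1 := by rw [← hcov]; exact Or.inl (Or.inl hx)
      simpa using this
    · have : F x ∈ Metric.closedBall (0 : ℂ) 1 := by
        rw [← hcov]; exact Or.inl (Or.inr ⟨x, hx, rfl⟩)
      rwa [hLF x, mem_closedBall_zero_iff, LinearIsometryEquiv.norm_map] at this
    · have : G x ∈ Metric.closedBall (0 : ℂ) 1 := by
        rw [← hcov]; exact Or.inr ⟨x, hx, rfl⟩
      rwa [hLG x, mem_closedBall_zero_iff, LinearIsometryEquiv.norm_map] at this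
  set V0 : Set ℂ := Bo ∩ (Dv q2 ∩ Dv q3) with hV0
  set V1 : Set ℂ := Bo ∩ (Dv (-q2) ∩ Dv (q3 - q2)) with hV1
  set V2 : Set ℂ := Bo ∩ (Dv (-q3) ∩ Dv (q2 - q3)) with hV2
  have m0 : MeasurableSet V0 :=
    isOpen_Bo.measurableSet.inter ((isClosed_Dv _).inter (isClosed_Dv _)).measurableSet
  have m1 : MeasurableSet V1 :=
    isOpen_Bo.measurableSet.inter ((isClosed_Dv _).inter (isClosed_Dv _)).measurableSet
  have m2 : MeasurableSet V2 :=
    isOpen_Bo.measurableSet.inter ((isClosed_Dv _).inter (isClosed_Dv _)).measurableSet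
  have hcover : Bo ⊆ V0 ∪ LF '' V1 ∪ LG '' V2 := by
    intro z hz
    have hr : 0 < ‖z‖ := norm_pos_iff.2 hz.1
    set y : ℂ := z / (‖z‖ : ℂ) with hy
    have hrc : (‖z‖ : ℂ) ≠ 0 := by exact_mod_cast hr.ne'
    have hzy : z = (‖z‖ : ℂ) * y := by rw [hy]; field_simp
    have hyn : ‖y‖ = 1 := by
      rw [hy, norm_div, Complex.norm_real, norm_norm, div_self hr.ne']
    have hyc : y ∈ A ∪ F '' A ∪ G '' A := by
      rw [hcov]; simp [hyn]
    have hBo : ∀ w : ℂ, ‖w‖ = 1 → (‖z‖ : ℂ) * w ∈ Bo := by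
      intro w hw
      refine ⟨mul_ne_zero hrc (by rw [← norm_pos_iff, hw]; exact one_pos), ?_⟩
      rw [norm_mul, hw, mul_one, Complex.norm_real, norm_norm]
      exact hz.2
    rcases hyc with (hy1 | ⟨x, hx, hxy⟩) | ⟨x, hx, hxy⟩
    · refine Or.inl (Or.inl ?_)
      rw [hzy]
      exact ⟨hBo y hyn, mem_Dv hyn (hA y hy1).2.1 hr, mem_Dv hyn (hA y hy1).2.2 hr⟩
    · refine Or.inl (Or.inr ?_)
      have hw : ‖x - q2‖ = 1 := by
        rw [← hyn, ← hxy, hLF x, LinearIsometryEquiv.norm_map]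
      refine ⟨(‖z‖ : ℂ) * (x - q2), ⟨hBo _ hw, mem_Dv hw ?_ hr, mem_Dv hw ?_ hr⟩, ?_⟩
      · have := (hA x hx).1
        rwa [show x - q2 - -q2 = x by ring]
      · have := (hA x hx).2.2
        rwa [show x - q2 - (q3 - q2) = x - q3 by ring]
      · rw [← Complex.real_smul, map_smul, ← hLF x, hxy, Complex.real_smul, ← hzy]
    · refine Or.inr ?_
      have hw : ‖x - q3‖ = 1 := by
        rw [← hyn, ← hxy, hLG x, LinearIsometryEquiv.norm_map]
      refine ⟨(‖z‖ : ℂ) * (x - q3), ⟨hBo _ hw, mem_Dv hw ?_ hr, mem_Dv hw ?_ hr⟩, ?_⟩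
      · have := (hA x hx).1
        rwa [show x - q3 - -q3 = x by ring]
      · have := (hA x hx).2.1
        rwa [show x - q3 - (q2 - q3) = x - q2 by ring]
      · rw [← Complex.real_smul, map_smul, ← hLG x, hxy, Complex.real_smul, ← hzy]
  have n2 : -q2 ≠ 0 := neg_ne_zero.2 h2
  have n3 : -q3 ≠ 0 := neg_ne_zero.2 h3
  have n32 : q3 - q2 ≠ 0 := sub_ne_zero.2 (Ne.symm h23)
  have n23 : q2 - q3 ≠ 0 := sub_ne_zero.2 h23
  have re_neg' : ∀ z v : ℂ, (z * conj (-v)).re = -(z * conj v).re := by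
    intro z v; rw [map_neg, mul_neg, Complex.neg_re]
  have d01 : Disjoint V0 V1 := by
    rw [Set.disjoint_left]
    intro z hz0 hz1
    have a1 := pos_of_mem hz0.1.1 h2 hz0.2.1
    have a2 := pos_of_mem hz0.1.1 n2 hz1.2.1
    rw [re_neg'] at a2
    linarith
  have d02 : Disjoint (V0 ∪ V1) V2 := by
    rw [Set.disjoint_left]
    rintro z (hz0 | hz1) hz2
    · have a1 := pos_of_mem hz0.1.1 h3 hz0.2.2
      have a2 := pos_of_mem hz0.1.1 n3 hz2.2.1
      rw [re_neg'] at a2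
      linarith
    · have a1 := pos_of_mem hz1.1.1 n32 hz1.2.2
      have a2 := pos_of_mem hz1.1.1 n23 hz2.2.2
      rw [show q2 - q3 = -(q3 - q2) by ring, re_neg'] at a2
      linarith
  have hsub : V0 ∪ V1 ∪ V2 ⊆ Bo := by
    rintro z ((h | h) | h) <;> exact h.1
  have hvol : volume Bo ≤ volume (V0 ∪ V1 ∪ V2) := by
    calc volume Bo ≤ volume (V0 ∪ LF '' V1 ∪ LG '' V2) := measure_mono hcover
      _ ≤ volume (V0 ∪ LF '' V1) + volume (LG '' V2) := measure_union_le _ _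
      _ ≤ volume V0 + volume (LF '' V1) + volume (LG '' V2) := by
        gcongr; exact measure_union_le _ _
      _ = volume V0 + volume V1 + volume V2 := by rw [vol_image LF m1, vol_image LG m2]
      _ = volume (V0 ∪ V1 ∪ V2) := by
        rw [measure_union d02 m2, measure_union d01 m1]
  have hnull : volume (Bo \ (V0 ∪ V1 ∪ V2)) = 0 := by
    rw [measure_sdiff hsub ((m0.union m1).union m2).nullMeasurableSet
      (ne_top_of_le_ne_top Bo_finite (measure_mono hsub))]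
    exact tsub_eq_zero_of_le hvol
  have hopen : IsOpen (Bo \ (V0 ∪ V1 ∪ V2)) := by
    have h : Bo \ (V0 ∪ V1 ∪ V2) = Bo \ ((Dv q2 ∩ Dv q3) ∪ (Dv (-q2) ∩ Dv (q3 - q2)) ∪
        (Dv (-q3) ∩ Dv (q2 - q3))) := by
      ext z
      simp only [hV0, hV1, hV2, Set.mem_sdiff, Set.mem_union, Set.mem_inter_iff]
      tauto
    rw [h]
    exact isOpen_Bo.sdiff ((((isClosed_Dv _).inter (isClosed_Dv _)).union
      ((isClosed_Dv _).inter (isClosed_Dv _))).union ((isClosed_Dv _).inter (isClosed_Dv _)))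
  have hempty := (hopen.measure_eq_zero_iff volume).1 hnull
  have hall : ∀ z ∈ Bo, z ∈ V0 ∪ V1 ∪ V2 := by
    intro z hz
    by_contra hc
    have : z ∈ Bo \ (V0 ∪ V1 ∪ V2) := ⟨hz, hc⟩
    rw [hempty] at this
    exact this
  -- a vector orthogonal to `q2`
  have hq : 0 < ‖q2‖ := norm_pos_iff.2 h2
  set z : ℂ := ((1 / (2 * ‖q2‖) : ℝ) : ℂ) * (Complex.I * q2) with hz
  have hz0 : z ≠ 0 := by
    rw [hz]
    refine mul_ne_zero ?_ (mul_ne_zero Complex.I_ne_zero h2)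
    rw [Complex.ofReal_ne_zero]
    positivity
  have hzn : ‖z‖ < 1 := by
    rw [hz, norm_mul, norm_mul, Complex.norm_I, Complex.norm_real, Real.norm_eq_abs,
      abs_of_pos (by positivity), one_mul]
    have : 1 / (2 * ‖q2‖) * ‖q2‖ = 1 / 2 := by field_simp
    rw [this]; norm_num
  have horth : (z * conj q2).re = 0 := by
    rw [hz, mul_assoc, Complex.re_ofReal_mul, mul_assoc, Complex.mul_conj]
    simp
  have key : ∀ w : ℂ, w ≠ 0 → ‖w‖ < 1 → (w * conj q2).re = 0 → (w * conj q3).re < 0 := by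
    intro w hw0 hw1 hw2
    rcases hall w ⟨hw0, hw1⟩ with (h | h) | h
    · have a1 := pos_of_mem hw0 h2 h.2.1
      linarith
    · have a1 := pos_of_mem hw0 n2 h.2.1
      rw [re_neg'] at a1
      linarith
    · have a1 := pos_of_mem hw0 n3 h.2.1
      rw [re_neg'] at a1
      linarith
  have k1 := key z hz0 hzn horth
  have k2 := key (-z) (neg_ne_zero.2 hz0) (by rwa [norm_neg]) (by
    rw [neg_mul, Complex.neg_re, horth, neg_zero])
  rw [neg_mul, Complex.neg_re] at k2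
  linarith

end Pool.Agent.H908R3.Disc.TB

/-- the three centres cannot be pairwise distinct -/
theorem Pool.Agent.H908R3.Disc.taskB : Pool.Agent.H908R3.Disc.TaskB :=
  Pool.Agent.H908R3.Disc.TB.taskB
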