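import Pool.Agent.H89.OD.L.H908R3_Disc_Cases

/-!
# Certificate case 4 (helper59)
-/

set_option autoImplicit false

namespace Pool.Agent.H908R3.Disc

open Complex ComplexConjugate

theorem case4_rhoE {t η d : ℝ} (h : Real.sin η = d * Real.sin t) :
    (d : ℂ) + E (t + η) = ((Real.cos η + d * Real.cos t : ℝ) : ℂ) * E t := by
  have h1 := Real.sin_sq_add_cos_sq t
  apply Complex.ext
  · simp only [Complex.add_re, Complex.mul_re, Complex.ofReal_re, Complex.ofReal_im, E_re, E_im]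
    rw [Real.cos_add, h]
    linear_combination (-d) * h1
  · simp only [Complex.add_im, Complex.mul_im, Complex.ofReal_re, Complex.ofReal_im, E_re, E_im]
    rw [Real.sin_add, h]
    ring

theorem case4 : Case4 := by
  intro o b c e L1 L2 L3 hp h h2b hb35 hcb4
  have hpi := Real.pi_pos
  obtain ⟨hb0, hbpi, he0, he3, hbc, hcbe, hbpe⟩ := hp
  have H := h.lab
  have hb23 : b < 2 * Real.pi / 3 := by linarith
  have hc0 : 0 < c := by linarith
  have hs0 : 0 < Real.sin (e/2) := Real.sin_pos_of_pos_of_lt_pi (by linarith) (by linarith)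
  have hs1 : Real.sin (e/2) < 1 / 2 := by
    rw [← Real.sin_pi_div_six]
    apply Real.sin_lt_sin_of_lt_of_le_pi_div_two <;> linarith
  obtain ⟨d, hd⟩ : ∃ d : ℝ, d = 2 * Real.sin (e/2) := ⟨_, rfl⟩
  have hd0 : 0 < d := by linarith
  have hd1 : d < 1 := by linarith
  obtain ⟨t, ht⟩ : ∃ t : ℝ, t = 3 * b / 2 := ⟨_, rfl⟩
  have hst0 : 0 < Real.sin t := Real.sin_pos_of_pos_of_lt_pi (by linarith) (by linarith)
  have hst1 : Real.sin t < 1 / 2 := by
    rw [← Real.sin_pi_div_six, ← Real.sin_pi_sub t]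
    apply Real.sin_lt_sin_of_lt_of_le_pi_div_two <;> linarith
  have hds : d * Real.sin t < 1 / 2 := by nlinarith
  have hds0 : 0 < d * Real.sin t := mul_pos hd0 hst0
  obtain ⟨η, hη⟩ : ∃ η : ℝ, η = Real.arcsin (d * Real.sin t) := ⟨_, rfl⟩
  have hsη : Real.sin η = d * Real.sin t := by
    rw [hη]; exact Real.sin_arcsin (by linarith) (by linarith)
  have hη0 : 0 ≤ η := by rw [hη]; exact Real.arcsin_nonneg.2 hds0.le
  have hη2 : η ≤ Real.pi / 2 := by rw [hη]; exact Real.arcsin_le_pi_div_two _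
  have hη1 : η < Real.pi / 6 := by
    by_contra hcon
    push Not at hcon
    have h1 : Real.sin (Real.pi / 6) ≤ Real.sin η :=
      Real.sin_le_sin_of_le_of_le_pi_div_two (by linarith) hη2 hcon
    rw [Real.sin_pi_div_six, hsη] at h1
    linarith
  obtain ⟨ρ, hρ⟩ : ∃ ρ : ℝ, ρ = Real.cos η + d * Real.cos t := ⟨_, rfl⟩
  -- positivity of rho
  have hcη : 0 < Real.cos η := Real.cos_pos_of_mem_Ioo ⟨by linarith, by linarith⟩
  have hρ0 : 0 < ρ := by
    have h1 := Real.sin_sq_add_cos_sq η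
    have h2 := Real.sin_sq_add_cos_sq t
    rw [hsη] at h1
    by_contra hcon
    push Not at hcon
    rw [hρ] at hcon
    have h3 : Real.cos η ≤ - (d * Real.cos t) := by linarith
    have h4 : Real.cos η ^ 2 ≤ (d * Real.cos t) ^ 2 := by nlinarith
    have h5 : (d * Real.sin t) ^ 2 + (d * Real.cos t) ^ 2 = d ^ 2 := by
      linear_combination d ^ 2 * h2
    have h6 : d ^ 2 < 1 := by nlinarith
    linarith
  have hnorm : ρ ^ 2 + d ^ 2 - 2 * ρ * d * Real.cos t = 1 := by
    have h1 := Real.sin_sq_add_cos_sq η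
    have h2 := Real.sin_sq_add_cos_sq t
    rw [hsη] at h1
    rw [hρ]
    linear_combination h1 - d ^ 2 * h2
  have e1 : (d : ℂ) + E (t + η) = (ρ : ℂ) * E t := by
    rw [case4_rhoE hsη, hρ]
  have e2 : (d : ℂ) + E (-t + -η) = (ρ : ℂ) * E (-t) := by
    have h1 : Real.sin (-η) = d * Real.sin (-t) := by
      rw [Real.sin_neg, Real.sin_neg, hsη]; ring
    rw [case4_rhoE h1, hρ, Real.cos_neg, Real.cos_neg]
  have hA : L3 (E (c + (t + η))) := H.sure3 he0 he3 hb0 hbpi hc0 hcbe (by linarith)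
    (Or.inr (by linarith)) (Or.inl (by linarith))
  have hB : L3 (E (c + (-t + -η))) := by
    rw [← E_two_pi]
    exact H.sure3 he0 he3 hb0 hbpi hc0 hcbe (by linarith)
      (Or.inr (by linarith)) (Or.inl (by linarith))
  have hP : L1 ((ρ : ℂ) * E t) ∧ L1 ((ρ : ℂ) * E (-t)) := by
    unfold CfgO at h
    rw [← hd] at h
    cases o with
    | true =>
      simp only [if_true] at h
      have h1 := h.g31 _ hA
      have h2 := h.g31 _ hB
      simp only [giP] at h1 h2
      rw [E_mul, neg_add_cancel_left] at h1 h2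
      rw [e1] at h1
      rw [e2] at h2
      exact ⟨h1, h2⟩
    | false =>
      simp only [Bool.false_eq_true, if_false] at h
      have h1 := h.g31 _ hA
      have h2 := h.g31 _ hB
      simp only [giR] at h1 h2
      rw [conj_E, E_mul] at h1 h2
      have h3 : c + -(c + (t + η)) = -t + -η := by ring
      have h4 : c + -(c + (-t + -η)) = t + η := by ring
      rw [h3, e2] at h1
      rw [h4, e1] at h2
      exact ⟨h2, h1⟩
  obtain ⟨hP1, hP2⟩ := hP
  have a1 : ¬ L1 (E b * ((ρ : ℂ) * E (-t))) := fun hh => H.n12 _ hh (H.r12 _ hP2)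
  have a2 : ¬ L2 (E b * (E b * ((ρ : ℂ) * E (-t)))) := H.not2_of a1
  have hy : E b * (E b * ((ρ : ℂ) * E (-t))) = (ρ : ℂ) * E (b / 2) := by
    have h1 : E b * (E b * ((ρ : ℂ) * E (-t))) = (ρ : ℂ) * (E b * (E b * E (-t))) := by ring
    rw [h1, E_mul, E_mul]
    congr 2
    rw [ht]; ring
  rw [hy] at a2
  have a3 : ¬ L1 ((ρ : ℂ) * E (b / 2)) := by
    intro hh
    have h1 := H.r12 _ hh
    have h2 : E b * ((ρ : ℂ) * E (b / 2)) = (ρ : ℂ) * E t := by
      have h3 : E b * ((ρ : ℂ) * E (b / 2)) = (ρ : ℂ) * (E b * E (b / 2)) := by ring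
      rw [h3, E_mul]
      congr 2
      rw [ht]; ring
    rw [h2] at h1
    exact H.n12 _ hP1 h1
  have hcos : - Real.cos t < Real.cos (c - b / 2) := by
    rw [← Real.cos_pi_sub]
    apply Real.cos_lt_cos_of_nonneg_of_le_pi <;> linarith
  have a4 : ¬ L3 ((ρ : ℂ) * E (b / 2)) := by
    intro hh
    have h1 := H.m3 _ hh
    rw [← hd] at h1
    refine norm_gt_one ?_ h1
    simp only [Complex.add_re, Complex.add_im, Complex.mul_re, Complex.mul_im,
      Complex.ofReal_re, Complex.ofReal_im, E_re, E_im]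
    have h2 := Real.sin_sq_add_cos_sq (b / 2)
    have h3 := Real.sin_sq_add_cos_sq c
    rw [Real.cos_sub] at hcos
    have h4 : 0 < ρ * d * (Real.cos c * Real.cos (b / 2) + Real.sin c * Real.sin (b / 2)
        + Real.cos t) := mul_pos (mul_pos hρ0 hd0) (by linarith)
    have h5 : (ρ * Real.cos (b / 2) - 0 * Real.sin (b / 2) + (d * Real.cos c - 0 * Real.sin c)) ^ 2
        + (ρ * Real.sin (b / 2) + 0 * Real.cos (b / 2) + (d * Real.sin c + 0 * Real.cos c)) ^ 2
        = ρ ^ 2 * (Real.sin (b / 2) ^ 2 + Real.cos (b / 2) ^ 2)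
          + d ^ 2 * (Real.sin c ^ 2 + Real.cos c ^ 2)
          + 2 * ρ * d * (Real.cos c * Real.cos (b / 2) + Real.sin c * Real.sin (b / 2)) := by ring
    rw [h5, h2, h3]
    nlinarith
  have hn : ‖(ρ : ℂ) * E (b / 2)‖ ≤ 1 := by
    rw [← hy, norm_E_mul, norm_E_mul]
    exact H.in1 _ hP2
  rcases H.cov _ hn with h1 | h1 | h1
  · exact a3 h1
  · exact a2 h1
  · exact a4 h1

end Pool.Agent.H908R3.Disc
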