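import Pool.Agent.H89.OD.L.H908R3_Disc_Cases

/-!
# Case 5 (helper436)
-/

set_option autoImplicit false

namespace Pool.Agent.H908R3.Disc

open Complex ComplexConjugate

theorem case5 : Case5 := by
  intro b c e L1 L2 L3 hP hO h2b hA hB
  have hpi := Real.pi_pos
  have hc0 : 0 < c := by linarith [hP.b0, hP.cb]
  have hec : e ≤ c := by linarith [hP.cb, hP.cbe]
  have hlab := hO.lab
  obtain ⟨z, hz⟩ : ∃ z, z = e2 c e := ⟨_, rfl⟩
  rw [← hz] at hA hB
  obtain ⟨d, hd⟩ : ∃ d, d = 2 * Real.sin (e / 2) := ⟨_, rfl⟩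
  have hs0 : 0 < Real.sin (e / 2) :=
    Real.sin_pos_of_pos_of_lt_pi (by linarith [hP.e0]) (by linarith [hP.e3])
  have hd0 : 0 < d := by rw [hd]; linarith
  have hcos0 : 0 < Real.cos (c / 2) :=
    Real.cos_pos_of_mem_Ioo ⟨by linarith, by linarith [hP.cbe, hP.bpi, hP.e0]⟩
  -- `d cos (c/2) ≤ sin e`
  have hcosle : Real.cos (c / 2) ≤ Real.cos (e / 2) := by
    apply Real.cos_le_cos_of_nonneg_of_le_pi <;> linarith [hP.e0, hP.cbe, hP.bpi]
  have hle : d * Real.cos (c / 2) ≤ Real.sin e := by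
    have h1 : Real.sin e = 2 * Real.sin (e / 2) * Real.cos (e / 2) := by
      rw [← Real.sin_two_mul]; congr 1; ring
    rw [h1, hd]
    exact mul_le_mul_of_nonneg_left hcosle (by linarith)
  have hpos : 0 ≤ d * Real.cos (c / 2) := by positivity
  have hzdef : z = Real.arcsin (d * Real.cos (c / 2)) := by
    rw [hz, e2, hd]
  have hsz : Real.sin z = d * Real.cos (c / 2) := by
    rw [hzdef]
    exact Real.sin_arcsin (by linarith) (hle.trans (Real.sin_le_one e))
  have hze : z ≤ e := by
    have h1 : Real.arcsin (Real.sin e) = e :=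
      Real.arcsin_sin (by linarith [hP.e0]) (by linarith [hP.e3])
    rw [hzdef, ← h1]
    exact Real.monotone_arcsin hle
  obtain ⟨t, ht⟩ : ∃ t, t = Real.cos z - d * Real.sin (c / 2) := ⟨_, rfl⟩
  obtain ⟨Y, hY⟩ : ∃ Y : ℂ, Y = (t : ℂ) * E (c / 2 + Real.pi / 2) := ⟨_, rfl⟩
  have ct : Real.cos (c / 2 + Real.pi / 2) = - Real.sin (c / 2) := Real.cos_add_pi_div_two _
  have st : Real.sin (c / 2 + Real.pi / 2) = Real.cos (c / 2) := Real.sin_add_pi_div_two _
  have hcsq := Real.sin_sq_add_cos_sq (c / 2)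
  -- `Y - d = E (c/2 + π/2 + z)`
  have hY1 : Y - (d : ℂ) = E (c / 2 + Real.pi / 2 + z) := by
    rw [hY]
    apply Complex.ext
    · rw [E_re, Real.cos_add, ct, st, hsz]
      simp only [Complex.sub_re, Complex.mul_re, Complex.ofReal_re, Complex.ofReal_im, E_re, E_im,
        ct, st]
      rw [ht]
      linear_combination d * hcsq
    · rw [E_im, Real.sin_add, ct, st, hsz]
      simp only [Complex.sub_im, Complex.mul_im, Complex.ofReal_re, Complex.ofReal_im, E_re, E_im,
        ct, st]
      rw [ht]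
      ring
  have hY2 : Y + (d : ℂ) * E c = E (c / 2 + Real.pi / 2 - z) := by
    have hcc : E c = E (c / 2) * E (c / 2) := by rw [E_mul]; congr 1; ring
    rw [hY, hcc]
    apply Complex.ext
    · rw [E_re, Real.cos_sub, ct, st, hsz]
      simp only [Complex.add_re, Complex.mul_re, Complex.mul_im, Complex.ofReal_re,
        Complex.ofReal_im, E_re, E_im, ct, st]
      rw [ht]
      ring
    · rw [E_im, Real.sin_sub, ct, st, hsz]
      simp only [Complex.add_im, Complex.mul_re, Complex.mul_im, Complex.ofReal_re,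
        Complex.ofReal_im, E_re, E_im, ct, st]
      rw [ht]
      ring
  have hcfg : Cfg b (gP c d) (giP c d) L1 L2 L3 := by
    have := hO
    unfold CfgO at this
    rw [hd]
    simpa using this
  have hEE : E c * E (-c) = 1 := by rw [E_mul]; simp [E_zero]
  -- `gi Y`
  have hgi : giP c d Y = E (Real.pi / 2 - c / 2 - z) := by
    have h1 : giP c d Y = E (-c) * (Y + (d : ℂ) * E c) := by
      simp only [giP]
      linear_combination (-(d : ℂ)) * hEE
    rw [h1, hY2, E_mul]
    congr 1
    ring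
  have hg : gP c d Y = E (3 * c / 2 + Real.pi / 2 + z) := by
    simp only [gP]
    rw [hY1, E_mul]
    congr 1
    ring
  have hgg : gP c d (giP c d Y) = Y := by
    simp only [gP, giP]
    linear_combination Y * hEE
  have hgg' : giP c d (gP c d Y) = Y := by
    simp only [gP, giP]
    linear_combination (Y - d) * hEE
  have hL1 : L1 (giP c d Y) := by
    rw [hgi]
    exact hlab.sure1 hP.e0 hP.e3 hP.b0 hP.bpi hc0 hP.cbe (by linarith [hP.cbe, hP.b0])
      (by linarith)
  have hL3 : L3 Y := by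
    have := hcfg.g13 _ hL1
    rwa [hgg] at this
  have hL3' : L3 (gP c d Y) := by
    rw [hg]
    exact hlab.sure3 hP.e0 hP.e3 hP.b0 hP.bpi hc0 hP.cbe (by linarith) (Or.inl (by linarith))
      (Or.inr (by linarith))
  have hL1' : L1 Y := by
    have := hcfg.g31 _ hL3'
    rwa [hgg'] at this
  exact hlab.n13 _ hL1' hL3

end Pool.Agent.H908R3.Disc
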