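import Pool.Agent.H89.OD.L.H908R3_Disc_Cases

/-! Proof of `Case6`. -/

set_option autoImplicit false

namespace Pool.Agent.H908R3.Disc

open Complex ComplexConjugate

namespace C6

/-- The real-variable facts used in `case6`. -/
structure Facts (b c e d τ Δ K : ℝ) : Prop where
  d0 : 0 < d
  d1 : d ≤ 0.525
  st : Real.sin τ = d
  ct : 0.85 ≤ Real.cos τ
  t0 : 0 ≤ τ
  tc : c + τ ≤ Real.pi / 2
  t3 : τ ≤ Real.pi / 3
  D0 : 0 ≤ Real.sin Δ
  D1 : Real.sin Δ ≤ 1 / 2
  D2 : 0.86 ≤ Real.cos Δ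
  K0 : Real.cos K < 0
  K1 : 1 / 2 ≤ Real.sin K
  KD : 1 < Real.sin Δ + Real.sin K
  C0 : d ≤ Real.cos c

theorem facts {b c e : ℝ} (hp : Par b c e) (hbe : (Real.pi + e) / 2 ≤ b)
    (hb35 : 3 * Real.pi / 5 < b)
    (hcb : Real.pi - b < c) (hcb2 : 2 * b - Real.pi ≤ c)
    (h6 : 3 * c / 2 + e2 c e + e / 2 ≤ b) :
    Facts b c e (2 * Real.sin (e / 2)) (Real.arcsin (2 * Real.sin (e / 2))) ((b - c) / 2)
      ((b + c) / 2) := by
  obtain ⟨b0, bpi, e0, e3, cb, cbe, bpe⟩ := hp
  have hpi := Real.pi_pos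
  have hpi3 := Real.pi_gt_d2
  have hpi4 : Real.pi < 3.15 := Real.pi_lt_d2
  have hs0 : 0 < Real.sin (e / 2) := Real.sin_pos_of_pos_of_lt_pi (by linarith) (by linarith)
  have hc0 : 0 < c := by linarith
  have hcc : 0 < Real.cos (c / 2) := Real.cos_pos_of_mem_Ioo ⟨by linarith, by linarith⟩
  have he2 : 0 ≤ e2 c e := Real.arcsin_nonneg.2 (by positivity)
  have hcc2 : 1 / 2 ≤ Real.cos (c / 2) := by
    rw [← Real.cos_pi_div_three]
    exact Real.cos_le_cos_of_nonneg_of_le_pi (by linarith) (by linarith) (by linarith)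
  have he2' : e / 2 ≤ e2 c e := by
    have h1 : e / 2 = Real.arcsin (Real.sin (e / 2)) :=
      (Real.arcsin_sin (by linarith) (by linarith)).symm
    rw [h1]
    unfold e2
    refine Real.monotone_arcsin ?_
    nlinarith
  have he6 : e ≤ Real.pi / 6 := by linarith
  have hc2 : c + (e2 c e + e / 2) ≤ Real.pi / 2 := by linarith
  set d : ℝ := 2 * Real.sin (e / 2) with hd
  have hde : d ≤ e := by
    have := Real.sin_le (show 0 ≤ e / 2 by linarith)
    linarith
  have hd0 : 0 < d := by positivity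
  have hd1 : d ≤ 0.525 := by linarith
  have hd2 : d ^ 2 ≤ 0.2757 := by nlinarith
  have hcc7 : 0.7 ≤ Real.cos (c / 2) := by
    have h1 : Real.cos (Real.pi / 4) ≤ Real.cos (c / 2) :=
      Real.cos_le_cos_of_nonneg_of_le_pi (by linarith) (by linarith) (by linarith)
    rw [Real.cos_pi_div_four] at h1
    have h2 : (1.4 : ℝ) ≤ Real.sqrt 2 := by
      apply Real.le_sqrt_of_sq_le
      norm_num
    linarith
  have hst : Real.sin (Real.arcsin d) = d := Real.sin_arcsin (by linarith) (by linarith)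
  have hct : 0.85 ≤ Real.cos (Real.arcsin d) := by
    rw [Real.cos_arcsin]
    apply Real.le_sqrt_of_sq_le
    nlinarith
  have hx0 : 0 ≤ d * Real.cos (c / 2) := by positivity
  have hx1 : d * Real.cos (c / 2) ≤ d := by
    have := Real.cos_le_one (c / 2)
    nlinarith
  have hse2 : Real.sin (e2 c e) = d * Real.cos (c / 2) := by
    unfold e2
    exact Real.sin_arcsin (by linarith) (by linarith)
  have hce2 : 0.85 ≤ Real.cos (e2 c e) := by
    unfold e2
    rw [Real.cos_arcsin]
    apply Real.le_sqrt_of_sq_le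
    have : (d * Real.cos (c / 2)) ^ 2 ≤ d ^ 2 := by
      apply pow_le_pow_left₀ hx0 hx1
    nlinarith
  have hce : 0.96 ≤ Real.cos (e / 2) := by
    have h1 := Real.sin_sq_add_cos_sq (e / 2)
    have h2 : 0 ≤ Real.cos (e / 2) := Real.cos_nonneg_of_mem_Icc ⟨by linarith, by linarith⟩
    have h3 : Real.sin (e / 2) = d / 2 := by rw [hd]; ring
    rw [h3] at h1
    nlinarith
  have htau : Real.arcsin d ≤ e2 c e + e / 2 := by
    rw [← Real.arcsin_sin (x := e2 c e + e / 2) (by linarith) (by linarith)]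
    refine Real.monotone_arcsin ?_
    rw [Real.sin_add, hse2]
    have h3 : Real.sin (e / 2) = d / 2 := by rw [hd]; ring
    rw [h3]
    have h4 : 0.7 * 0.96 ≤ Real.cos (c / 2) * Real.cos (e / 2) := by
      nlinarith
    have h5 : d * (0.7 * 0.96) ≤ d * (Real.cos (c / 2) * Real.cos (e / 2)) :=
      mul_le_mul_of_nonneg_left h4 hd0.le
    have h6 : d * 0.85 ≤ d * Real.cos (e2 c e) := mul_le_mul_of_nonneg_left hce2 hd0.le
    nlinarith
  have ht0 : 0 ≤ Real.arcsin d := Real.arcsin_nonneg.2 hd0.le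
  have hcpi : c < Real.pi / 2 := by linarith
  refine ⟨hd0, hd1, hst, hct, ht0, by linarith, ?_, ?_, ?_, ?_, ?_, ?_, ?_, ?_⟩
  · linarith
  · exact Real.sin_nonneg_of_nonneg_of_le_pi (by linarith) (by linarith)
  · rw [← Real.sin_pi_div_six]
    exact Real.sin_le_sin_of_le_of_le_pi_div_two (by linarith) (by linarith) (by linarith)
  · have h1 : Real.cos (Real.pi / 6) ≤ Real.cos ((b - c) / 2) :=
      Real.cos_le_cos_of_nonneg_of_le_pi (by linarith) (by linarith) (by linarith)
    rw [Real.cos_pi_div_six] at h1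
    have h2 : (1.72 : ℝ) ≤ Real.sqrt 3 := by
      apply Real.le_sqrt_of_sq_le
      norm_num
    linarith
  · exact Real.cos_neg_of_pi_div_two_lt_of_lt (by linarith) (by linarith)
  · rw [← Real.sin_pi_div_six, ← Real.sin_pi_sub ((b + c) / 2)]
    exact Real.sin_le_sin_of_le_of_le_pi_div_two (by linarith) (by linarith) (by linarith)
  · have h1 : Real.sin ((b - c) / 2) + Real.sin ((b + c) / 2) =
        2 * (Real.sin (b / 2) * Real.cos (c / 2)) := by
      have e1 : (b - c) / 2 = b / 2 - c / 2 := by ring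
      have e2 : (b + c) / 2 = b / 2 + c / 2 := by ring
      rw [e1, e2, Real.sin_add, Real.sin_sub]
      ring
    rw [h1]
    have h2 : Real.sin (Real.pi / 4) < Real.sin (b / 2) :=
      Real.sin_lt_sin_of_lt_of_le_pi_div_two (by linarith) (by linarith) (by linarith)
    have h3 : Real.cos (Real.pi / 4) < Real.cos (c / 2) :=
      Real.cos_lt_cos_of_nonneg_of_le_pi (by linarith) (by linarith) (by linarith)
    rw [Real.sin_pi_div_four] at h2
    rw [Real.cos_pi_div_four] at h3
    have h4 : Real.sqrt 2 * Real.sqrt 2 = 2 := Real.mul_self_sqrt (by norm_num)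
    have h5 : 0 < Real.sqrt 2 := by positivity
    nlinarith
  · have h1 : Real.cos (Real.pi / 2 - Real.arcsin d) ≤ Real.cos c :=
      Real.cos_le_cos_of_nonneg_of_le_pi hc0.le (by linarith) (by linarith)
    rw [Real.cos_pi_div_two_sub, hst] at h1
    exact h1

end C6

theorem case6 : Case6 := by
  intro b c e L1 L2 L3 hp h hbe hb35 hcb hcb2 h6
  have F := C6.facts hp hbe hb35 hcb hcb2 h6
  have hl := CfgO.lab h
  have hC : Cfg b (gP c (2 * Real.sin (e/2))) (giP c (2 * Real.sin (e/2))) L1 L2 L3 := h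
  obtain ⟨b0, bpi, e0, e3, cb, cbe, bpe⟩ := hp
  have hpi := Real.pi_pos
  have hm1 := hl.m1
  have hm2 := hl.m2
  have hm3 := hl.m3
  set d : ℝ := 2 * Real.sin (e/2) with hd
  set τ : ℝ := Real.arcsin d with hτ
  obtain ⟨Δ, hΔ⟩ : ∃ Δ : ℝ, Δ = (b - c) / 2 := ⟨_, rfl⟩
  obtain ⟨K, hK⟩ : ∃ K : ℝ, K = (b + c) / 2 := ⟨_, rfl⟩
  rw [← hΔ, ← hK] at F
  have hb : b = K + Δ := by rw [hΔ, hK]; ring
  have hc : c = K - Δ := by rw [hΔ, hK]; ring
  obtain ⟨d0, d1, st, ct, t0, tc, t3, D0, D1, D2, K0, K1, KD, C0⟩ := F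
  -- the point `w`
  have hw : L1 (E (τ - Δ)) :=
    hl.sure1 e0 e3 b0 bpi (by linarith) cbe (by rw [hΔ]; linarith) (by rw [hΔ]; linarith)
  have hgw : L3 (E c * (E (τ - Δ) - d)) := hC.g13 _ hw
  -- the point `t`
  have hEE : E b * (E c * (E (τ - Δ) - d)) = d + E K * (E (c + τ) - ((2 * d * Real.cos K : ℝ) : ℂ)) := by
    have e1 : E b * (E c * E (τ - Δ)) = E K * E (c + τ) := by
      rw [E_mul, E_mul, E_mul]
      congr 1
      rw [hb]; ring
    have e2 : E b * E c = E K * E K := by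
      rw [E_mul, E_mul]
      congr 1
      rw [hb, hc]; ring
    have e3 : ((2 * d * Real.cos K : ℝ) : ℂ) = d * (E K + E (-K)) := by
      rw [E_eq, E_eq, Real.cos_neg, Real.sin_neg]
      push_cast
      ring
    have e4 : E K * E (-K) = 1 := by rw [E_mul]; simp [E_zero]
    rw [e3]
    linear_combination e1 - d * e2 + d * e4
  have ht1 : ‖E b * (E c * (E (τ - Δ) - d))‖ ≤ 1 := by
    rw [norm_E_mul]
    exact hl.in3 _ hgw
  have ht2 : ¬ L2 (E b * (E c * (E (τ - Δ) - d))) :=
    hl.not2_of (fun h1 => hl.n13 _ h1 hgw)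
  have ht3 : ¬ L1 (E b * (E c * (E (τ - Δ) - d))) := by
    intro h1
    have h2 := hm1 _ h1
    rw [hEE, add_sub_cancel_left, norm_E_mul] at h2
    refine norm_gt_one ?_ h2
    simp only [Complex.sub_re, Complex.sub_im, Complex.ofReal_re, Complex.ofReal_im, E_re, E_im]
    have h3 : 0 ≤ Real.cos (c + τ) := Real.cos_nonneg_of_mem_Icc ⟨by linarith, by linarith⟩
    have h4 := Real.sin_sq_add_cos_sq (c + τ)
    have h5 : 0 < d * Real.cos K * (d * Real.cos K) := by
      have : d * Real.cos K < 0 := mul_neg_of_pos_of_neg d0 K0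
      nlinarith
    have h6 : 0 ≤ Real.cos (c + τ) * (-(d * Real.cos K)) := by
      have : d * Real.cos K < 0 := mul_neg_of_pos_of_neg d0 K0
      exact mul_nonneg h3 (by linarith)
    nlinarith
  have ht4 : L3 (E b * (E c * (E (τ - Δ) - d))) := by
    rcases hl.cov _ ht1 with h1 | h1 | h1
    · exact absurd h1 ht3
    · exact absurd h1 ht2
    · exact h1
  -- the point `u`
  have hu : L1 ((d : ℂ) + E (-c) * (E b * (E c * (E (τ - Δ) - d)))) := hC.g31 _ ht4
  have hu' : (d : ℂ) + E (-c) * (E b * (E c * (E (τ - Δ) - d))) =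
      d + E b * (E (τ - Δ) - d) := by
    have e4 : E (-c) * E c = 1 := by rw [E_mul]; simp [E_zero]
    linear_combination (E b * (E (τ - Δ) - d)) * e4
  rw [hu'] at hu
  -- the point `v`
  set v : ℂ := (d : ℂ) + E (-c) * (d + E b * (E (τ - Δ) - d)) with hv
  have hgv : gP c d v = d + E b * (E (τ - Δ) - d) := by
    unfold gP
    have e4 : E c * E (-c) = 1 := by rw [E_mul]; simp [E_zero]
    rw [hv, add_sub_cancel_left, ← mul_assoc, e4, one_mul]
  have hvE : v = E Δ * (E τ - ((2 * d * Real.sin Δ : ℝ) : ℂ) * Complex.I + d * E (-K)) := by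
    have e1 : E (-c) * (E b * E (τ - Δ)) = E Δ * E τ := by
      rw [E_mul, E_mul, E_mul]
      congr 1
      rw [hb, hc]; ring
    have e2 : E (-c) * E b = E Δ * E Δ := by
      rw [E_mul, E_mul]
      congr 1
      rw [hb, hc]; ring
    have e3 : ((2 * d * Real.sin Δ : ℝ) : ℂ) * Complex.I = d * (E Δ - E (-Δ)) := by
      rw [E_eq, E_eq, Real.cos_neg, Real.sin_neg]
      push_cast
      ring
    have e4 : E Δ * E (-Δ) = 1 := by rw [E_mul]; simp [E_zero]
    have e5 : E (-c) = E Δ * E (-K) := by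
      rw [E_mul]
      congr 1
      rw [hc]; ring
    rw [hv, e3]
    linear_combination e1 - d * e2 - d * e4 + d * e5
  have hst2 := Real.sin_sq_add_cos_sq τ
  have hsK2 := Real.sin_sq_add_cos_sq K
  have hsD2 := Real.sin_sq_add_cos_sq Δ
  rw [st] at hst2
  have hv1 : ‖v‖ ≤ 1 := by
    rw [hvE, norm_E_mul]
    refine norm_le_one ?_
    simp only [Complex.sub_re, Complex.sub_im, Complex.add_re, Complex.add_im, Complex.mul_re,
      Complex.mul_im, Complex.ofReal_re, Complex.ofReal_im, E_re, E_im, Complex.I_re,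
      Complex.I_im, Real.cos_neg, Real.sin_neg, st]
    have h1 : 0 ≤ (1 - 2 * Real.sin Δ) * (2 * Real.sin K - (1 - 2 * Real.sin Δ)) :=
      mul_nonneg (by linarith) (by linarith)
    have h2 : 0 ≤ d * d * ((1 - 2 * Real.sin Δ) * (2 * Real.sin K - (1 - 2 * Real.sin Δ))) :=
      mul_nonneg (by positivity) h1
    have h3 : 0 ≤ d * (Real.cos τ * (-Real.cos K)) :=
      mul_nonneg d0.le (mul_nonneg (by linarith) (by linarith))
    nlinarith
  have hv2 : ¬ L2 v := by
    intro h1
    have h2 := hm2 _ h1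
    have h3 : v - d * E b = E Δ * (E τ - ((2 * d * Real.sin Δ : ℝ) : ℂ) * Complex.I -
        ((2 * d * Real.sin K : ℝ) : ℂ) * Complex.I) := by
      have e3 : ((2 * d * Real.sin K : ℝ) : ℂ) * Complex.I = d * (E K - E (-K)) := by
        rw [E_eq, E_eq, Real.cos_neg, Real.sin_neg]
        push_cast
        ring
      have e5 : E b = E Δ * E K := by
        rw [E_mul]
        congr 1
        rw [hb]; ring
      rw [hvE, e3, e5]
      ring
    rw [h3, norm_E_mul] at h2
    refine norm_gt_one ?_ h2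
    simp only [Complex.sub_re, Complex.sub_im, Complex.add_re, Complex.add_im, Complex.mul_re,
      Complex.mul_im, Complex.ofReal_re, Complex.ofReal_im, E_re, E_im, Complex.I_re,
      Complex.I_im, Real.cos_neg, Real.sin_neg, st]
    have h4 : 0 < (Real.sin Δ + Real.sin K) * (Real.sin Δ + Real.sin K - 1) :=
      mul_pos (by linarith) (by linarith)
    have h5 : 0 < d * d * ((Real.sin Δ + Real.sin K) * (Real.sin Δ + Real.sin K - 1)) :=
      mul_pos (by positivity) h4
    nlinarith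
  have hv3 : ¬ L3 v := by
    intro h1
    have h2 := hm3 _ h1
    have h3 : v + d * E c = E Δ * (E τ - ((2 * d * Real.sin Δ : ℝ) : ℂ) * Complex.I +
        ((2 * d * Real.cos c : ℝ) : ℂ) * E (-Δ)) := by
      have e3 : ((2 * d * Real.cos c : ℝ) : ℂ) = d * (E c + E (-c)) := by
        rw [E_eq, E_eq, Real.cos_neg, Real.sin_neg]
        push_cast
        ring
      have e5 : E (-K) = E (-c) * E (-Δ) := by
        rw [E_mul]
        congr 1
        rw [hc]; ring
      have e4 : E Δ * E (-Δ) = 1 := by rw [E_mul]; simp [E_zero]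
      rw [hvE, e3, e5]
      linear_combination (-(d : ℂ) * E c) * e4
    rw [h3, norm_E_mul] at h2
    refine norm_gt_one ?_ h2
    simp only [Complex.sub_re, Complex.sub_im, Complex.add_re, Complex.add_im, Complex.mul_re,
      Complex.mul_im, Complex.ofReal_re, Complex.ofReal_im, E_re, E_im, Complex.I_re,
      Complex.I_im, Real.cos_neg, Real.sin_neg, st]
    set C := Real.cos c with hCdef
    set S := Real.sin Δ with hS
    set Y := Real.cos Δ with hY
    set T := Real.cos τ with hT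
    have hC1 : C ≤ 1 := Real.cos_le_one c
    have hTY : 0.731 ≤ T * Y := by nlinarith
    have g1 : 0.731 * d ≤ C * (T * Y) := by
      calc 0.731 * d ≤ (T * Y) * d := mul_le_mul_of_nonneg_right hTY d0.le
        _ ≤ (T * Y) * C := mul_le_mul_of_nonneg_left C0 (by linarith)
        _ = C * (T * Y) := mul_comm _ _
    have g2 : -(1 / 4) - 1 / 256 ≤ S ^ 2 - S + (C ^ 2 + C * (2 * S ^ 2 - S)) := by
      nlinarith [sq_nonneg (S - 1 / 2), sq_nonneg (S - 1 / 4), sq_nonneg (C - 1 / 16),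
        mul_nonneg (d0.le.trans C0) (sq_nonneg (S - 1 / 4))]
    have g3 : 0 < C * (T * Y) + d * (S ^ 2 - S + (C ^ 2 + C * (2 * S ^ 2 - S))) := by
      have := mul_le_mul_of_nonneg_left g2 d0.le
      nlinarith
    have g4 : 0 < 4 * d * (C * (T * Y) + d * (S ^ 2 - S + (C ^ 2 + C * (2 * S ^ 2 - S)))) :=
      mul_pos (by positivity) g3
    have hY2 : Y ^ 2 = 1 - S ^ 2 := by linarith
    have hT2 : T ^ 2 = 1 - d ^ 2 := by linarith
    have g5 : (T - (2 * d * S * 0 - 0 * 1) + (2 * d * C * Y - 0 * -S)) ^ 2 +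
        (d - (2 * d * S * 1 + 0 * 0) + (2 * d * C * -S + 0 * Y)) ^ 2 =
        1 + 4 * d * (C * (T * Y) + d * (S ^ 2 - S + (C ^ 2 + C * (2 * S ^ 2 - S)))) := by
      linear_combination hT2 + 4 * d ^ 2 * C ^ 2 * hY2
    rw [g5]
    linarith
  have hv4 : L1 v := by
    rcases hl.cov _ hv1 with h1 | h1 | h1
    · exact h1
    · exact absurd h1 hv2
    · exact absurd h1 hv3
  have hfin := hC.g13 _ hv4
  rw [hgv] at hfin
  exact hl.n13 _ hu hfin

end Pool.Agent.H908R3.Disc
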