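import Pool.Agent.H89.OD.L.H908R3_Disc_Cases

/-!
# Case 9 (helper936)
-/

set_option autoImplicit false

namespace Pool.Agent.H908R3.Disc

open Complex ComplexConjugate

namespace C9

theorem E_sub_E (t : ℝ) : E t - E (-t) = ((2 * Real.sin t : ℝ) : ℂ) * Complex.I := by
  rw [E_eq, E_eq, Real.cos_neg, Real.sin_neg]
  push_cast
  ring

theorem norm_gt_one' {z : ℂ} (h : 1 < z.re ^ 2 + z.im ^ 2) : ¬ ‖z‖ ≤ 1 := norm_gt_one h

theorem one_add_I {r : ℝ} (hr : r ≠ 0) : ¬ ‖(1 : ℂ) + (r : ℂ) * Complex.I‖ ≤ 1 := by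
  apply norm_gt_one
  simp only [Complex.add_re, Complex.add_im, Complex.one_re, Complex.one_im, Complex.mul_re,
    Complex.mul_im, Complex.ofReal_re, Complex.ofReal_im, Complex.I_re, Complex.I_im]
  have : 0 < r ^ 2 := by positivity
  nlinarith

end C9

open C9 in
theorem case9 : Case9 := by
  intro b c e L1 L2 L3 hP h hc hb hz
  have hpi := Real.pi_pos
  have hlab := h.lab
  obtain ⟨hb0, hbpi, he0, he3, hcb, hcbe, hbpe⟩ := hP
  have hcfg : Cfg b (gP c (2 * Real.sin (e/2))) (giP c (2 * Real.sin (e/2))) L1 L2 L3 := by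
    have h' := h
    unfold CfgO at h'
    simpa using h'
  -- the bound on `e2`
  have hs0 : 0 < Real.sin (e/2) := Real.sin_pos_of_pos_of_lt_pi (by linarith) (by linarith)
  have hs1 : Real.sin (e/2) ≤ 1/2 := by
    rw [← Real.sin_pi_div_six]
    exact Real.sin_le_sin_of_le_of_le_pi_div_two (by linarith) (by linarith) (by linarith)
  have hz1 : e2 c e ≤ Real.pi / 3 := by
    unfold e2
    rw [Real.arcsin_le_iff_le_sin' ⟨by linarith, by linarith⟩, Real.sin_pi_div_three]
    have h1 : Real.cos (c/2) ≤ Real.sqrt 3 / 2 := by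
      rw [← Real.cos_pi_div_six]
      apply Real.cos_le_cos_of_nonneg_of_le_pi <;> linarith
    have h3 : 0 ≤ Real.sqrt 3 / 2 := by positivity
    nlinarith
  have h7 : 5 * Real.pi - e < 7 * b := by linarith
  -- notation
  set d : ℝ := 2 * Real.sin (e/2) with hd
  have hd0 : 0 < d := by positivity
  set u : ℂ := E (b/2) with hu
  set v : ℂ := E (-(b/2)) with hv
  have huv : u * v = 1 := by
    rw [hu, hv, E_mul, add_neg_cancel, E_zero]
  have hEb : E b = u * u := by
    rw [hu, E_mul]; congr 1; ring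
  have hEnb : E (-b) = v * v := by
    rw [hv, E_mul]; congr 1; ring
  have hE2b : E (2 * b) = u * u * (u * u) := by
    rw [← hEb, E_mul]; congr 1; ring
  have hEc : E c = - (u * u * (u * u)) := by
    rw [← hE2b, ← E_add_pi, hc, ← E_two_pi (2 * b - Real.pi)]
    congr 1; ring
  have hE3 : E (3 * b / 2) = u * u * u := by
    rw [hu, E_mul, E_mul]; congr 1; ring
  have hEn3 : E (-(3 * b / 2)) = v * v * v := by
    rw [hv, E_mul, E_mul]; congr 1; ring
  have hS := E_sub_E (3 * b / 2)
  rw [hE3, hEn3] at hS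
  have hq := E_sub_E (b / 2)
  rw [← hu, ← hv] at hq
  have hsb : 0 < Real.sin b := Real.sin_pos_of_pos_of_lt_pi hb0 hbpi
  have hsb2 : 0 < Real.sin (b/2) := Real.sin_pos_of_pos_of_lt_pi (by linarith) (by linarith)
  have hS0 : Real.sin (3 * b / 2) < 0 := by
    have h1 : 0 < Real.sin (3 * b / 2 - Real.pi) :=
      Real.sin_pos_of_pos_of_lt_pi (by linarith) (by linarith)
    rw [Real.sin_sub_pi] at h1
    linarith
  have hnu : ‖u‖ = 1 := norm_E _
  -- `x = E (b/2)`
  have hx3 : ¬ L3 u := by
    apply hlab.not3 he0 he3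
    rw [hc]
    have h1 : - Real.cos (b / 2 - (2 * b - Real.pi)) = Real.cos (3 * b / 2) := by
      rw [show b / 2 - (2 * b - Real.pi) = Real.pi - 3 * b / 2 by ring, Real.cos_pi_sub]
      ring
    rw [h1]
    have h2 : Real.cos (3 * b / 2) < 0 := by
      apply Real.cos_neg_of_pi_div_two_lt_of_lt <;> linarith
    linarith
  rcases hcfg.cov u hnu.le with hx | hx | hx
  · -- `x` has label 1
    have hs := hcfg.g13 _ hx
    simp only [gP] at hs
    set s : ℂ := E c * (u - (d : ℂ)) with hsdef
    have hsn : ‖s‖ ≤ 1 := hcfg.in3 _ hs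
    have ht1 : ¬ L1 (E (-b) * s) := hlab.not1_of fun h2 => hcfg.n23 _ h2 hs
    have ht3 : ¬ L3 (E (-b) * s) := by
      intro h3
      have h4 := hlab.m3 _ h3
      have h5 : E (-b) * s + (d : ℂ) * E c
          = -(u * u * u) * (1 + ((2 * d * Real.sin (b/2) : ℝ) : ℂ) * Complex.I) := by
        have h6 : ((2 * d * Real.sin (b/2) : ℝ) : ℂ) * Complex.I = (d : ℂ) * (u - v) := by
          rw [hq]; push_cast; ring
        rw [h6, hsdef, hEc, hEnb]
        linear_combination (-(u * u * u) * (u * v + 1) + (d : ℂ) * u * u * (u * v)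
          + (d : ℂ) * u * u - (d : ℂ) * u * u) * huv
      rw [h5, norm_mul, norm_neg, ← hE3, norm_E, one_mul] at h4
      exact one_add_I (by positivity) h4
    have htn : ‖E (-b) * s‖ ≤ 1 := by rw [norm_E_mul]; exact hsn
    rcases hcfg.cov _ htn with h1 | h1 | h1
    · exact ht1 h1
    · have hy := hcfg.r21 _ h1
      have hgy := hcfg.g13 _ hy
      simp only [gP] at hgy
      have h8 : E c * (E (-b) * (E (-b) * s) - (d : ℂ)) = E (5 * b / 2 - 2 * Real.pi) := by
        have h9 : E (5 * b / 2 - 2 * Real.pi) = u * u * u * u * u := by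
          rw [← E_two_pi (5 * b / 2 - 2 * Real.pi), hu, E_mul, E_mul, E_mul, E_mul]
          congr 1; ring
        rw [h9, hsdef, hEc, hEnb]
        have h10 : u * u * (u * u) * (v * v * (v * v)) = 1 := by
          calc u * u * (u * u) * (v * v * (v * v)) = (u * v) ^ 4 := by ring
            _ = 1 := by rw [huv]; ring
        linear_combination (u * u * (u * u) * (u - (d : ℂ))) * h10
      rw [h8] at hgy
      refine hcfg.n13 _ ?_ hgy
      apply hlab.sure1 he0 he3 hb0 hbpi (by linarith) hcbe <;> linarith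
    · exact ht3 h1
  · -- `x` has label 2
    have hw := hcfg.r21 _ hx
    have hwe : E (-b) * u = v := by
      rw [hEnb]
      linear_combination v * huv
    rw [hwe] at hw
    have hs := hcfg.g13 _ hw
    simp only [gP] at hs
    set s : ℂ := E c * (v - (d : ℂ)) with hsdef
    have hsn : ‖s‖ ≤ 1 := hcfg.in3 _ hs
    have ht2 : ¬ L2 (E b * s) := hlab.not2_of fun h2 => hcfg.n13 _ h2 hs
    have ht1 : ¬ L1 (E b * s) := by
      intro h1
      have h4 := hlab.m1 _ h1
      have h5 : E b * s - (d : ℂ)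
          = (u * u * u) * (-(E b) + ((2 * d * Real.sin (3 * b/2) : ℝ) : ℂ) * Complex.I) := by
        have h6 : ((2 * d * Real.sin (3 * b/2) : ℝ) : ℂ) * Complex.I
            = (d : ℂ) * (u * u * u - v * v * v) := by
          rw [hS]; push_cast; ring
        have h7 : u * u * u * (v * v * v) = 1 := by
          calc u * u * u * (v * v * v) = (u * v) ^ 3 := by ring
            _ = 1 := by rw [huv]; ring
        rw [h6, hsdef, hEc, hEb]
        linear_combination (-(u * u * u * u * u)) * huv + (d : ℂ) * h7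
      rw [h5, norm_mul, ← hE3, norm_E, one_mul] at h4
      refine norm_gt_one ?_ h4
      simp only [Complex.add_re, Complex.add_im, Complex.neg_re, Complex.neg_im, Complex.mul_re,
        Complex.mul_im, Complex.ofReal_re, Complex.ofReal_im, Complex.I_re, Complex.I_im,
        E_re, E_im]
      have h8 : 0 < d * (-Real.sin (3 * b / 2)) * Real.sin b := by
        have : 0 < -Real.sin (3 * b / 2) := by linarith
        positivity
      nlinarith [Real.sin_sq_add_cos_sq b, sq_nonneg (d * Real.sin (3 * b / 2))]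
    have ht3 : ¬ L3 (E b * s) := by
      intro h3
      have h4 := hlab.m3 _ h3
      have h5 : E b * s + (d : ℂ) * E c
          = -(u * u * u * u * u) * (1 + ((-(2 * d * Real.sin (b/2)) : ℝ) : ℂ) * Complex.I) := by
        have h6 : ((-(2 * d * Real.sin (b/2)) : ℝ) : ℂ) * Complex.I = -((d : ℂ) * (u - v)) := by
          rw [hq]; push_cast; ring
        rw [h6, hsdef, hEc, hEb]
        linear_combination (-(u * u * u * u * u) + (d : ℂ) * u * u * (u * u)) * huv
      rw [h5, norm_mul, norm_neg] at h4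
      have h9 : ‖u * u * u * u * u‖ = 1 := by
        rw [norm_mul, norm_mul, norm_mul, norm_mul, hnu]; ring
      rw [h9, one_mul] at h4
      exact one_add_I (by
        have : 0 < 2 * d * Real.sin (b/2) := by positivity
        linarith) h4
    have htn : ‖E b * s‖ ≤ 1 := by rw [norm_E_mul]; exact hsn
    rcases hcfg.cov _ htn with h1 | h1 | h1
    · exact ht1 h1
    · exact ht2 h1
    · exact ht3 h1
  · exact hx3 hx

end Pool.Agent.H908R3.Disc
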