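import Pool.Agent.H89.OD.L.H908R3_Disc_Cases

/-!
# Case R
-/

set_option autoImplicit false

namespace Pool.Agent.H908R3.Disc

open Complex ComplexConjugate

namespace CR

theorem norm3 {z : ℂ} {d d' α β γ : ℝ}
    (hz : z = E α + (d : ℂ) * E β + (d' : ℂ) * E γ)
    (h : 0 < d ^ 2 + d' ^ 2 + 2 * d * Real.cos (α - β) + 2 * d' * Real.cos (α - γ)
      + 2 * d * d' * Real.cos (β - γ)) : ¬ ‖z‖ ≤ 1 := by
  apply norm_gt_one
  rw [hz]
  simp only [Complex.add_re, Complex.add_im, Complex.mul_re, Complex.mul_im,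
    Complex.ofReal_re, Complex.ofReal_im, E_re, E_im]
  rw [Real.cos_sub, Real.cos_sub, Real.cos_sub] at h
  have h1 : (Real.cos α + (d * Real.cos β - 0 * Real.sin β) + (d' * Real.cos γ - 0 * Real.sin γ)) ^ 2
      + (Real.sin α + (d * Real.sin β + 0 * Real.cos β) + (d' * Real.sin γ + 0 * Real.cos γ)) ^ 2
      = 1 + (d ^ 2 + d' ^ 2 + 2 * d * (Real.cos α * Real.cos β + Real.sin α * Real.sin β)
        + 2 * d' * (Real.cos α * Real.cos γ + Real.sin α * Real.sin γ)
        + 2 * d * d' * (Real.cos β * Real.cos γ + Real.sin β * Real.sin γ)) := by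
    linear_combination (Real.sin_sq_add_cos_sq α) + d ^ 2 * (Real.sin_sq_add_cos_sq β)
      + d' ^ 2 * (Real.sin_sq_add_cos_sq γ)
  rw [h1]
  linarith

end CR

theorem caseR : CaseR := by
  intro b c e L1 L2 L3 hp h hb2 hc1 hc2
  have hl := h.lab
  obtain ⟨b0, bpi, e0, e3, cb, cbe, bpe⟩ := hp
  have hpi := Real.pi_pos
  unfold CfgO at h
  simp only [Bool.false_eq_true, if_false] at h
  set d : ℝ := 2 * Real.sin (e / 2) with hd
  have hd0 : 0 < d := by
    have : 0 < Real.sin (e / 2) := Real.sin_pos_of_pos_of_lt_pi (by linarith) (by linarith)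
    linarith
  have hsb : 0 < Real.sin b := Real.sin_pos_of_pos_of_lt_pi b0 bpi
  -- step 2
  have hA : ¬ L1 (E (b / 2)) := by
    intro h1
    have h2 := h.g13 _ h1
    have hs : gR c d (E (b / 2)) = E (c - b / 2) - (d : ℂ) * E c := by
      simp only [gR]
      rw [conj_E, mul_sub, E_mul, show c + -(b / 2) = c - b / 2 by ring]
      ring
    rw [hs] at h2
    have hn1 : ¬ L1 (E (c - b / 2) - (d : ℂ) * E c) := fun h3 => h.n13 _ h3 h2
    have hn2 := hl.not2_of hn1
    have ht : E b * (E (c - b / 2) - (d : ℂ) * E c) = E (c + b / 2) - (d : ℂ) * E (b + c) := by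
      rw [mul_sub, E_mul, show b + (c - b / 2) = c + b / 2 by ring, E_add b c]
      ring
    have hnorm : ‖E b * (E (c - b / 2) - (d : ℂ) * E c)‖ ≤ 1 := by
      rw [norm_E_mul]
      exact h.in3 _ h2
    rcases h.cov _ hnorm with h3 | h3 | h3
    · have h4 := hl.m1 _ h3
      rw [← hd, ht] at h4
      refine CR.norm3 (d := -d) (d' := -d) (α := c + b / 2) (β := b + c) (γ := 0) ?_ ?_ h4
      · rw [E_zero]; push_cast; ring
      · have e1 : c + b / 2 - (b + c) = c / 2 - (b + c) / 2 := by ring
        have e2 : c + b / 2 - 0 = c / 2 + (b + c) / 2 := by ring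
        have e3' : b + c - 0 = 2 * ((b + c) / 2) := by ring
        rw [e1, e2, e3', Real.cos_two_mul, Real.cos_sub, Real.cos_add]
        have hp1 : Real.cos ((b + c) / 2) < 0 :=
          Real.cos_neg_of_pi_div_two_lt_of_lt (by linarith) (by linarith)
        have hq1 : 0 < Real.cos (c / 2) :=
          Real.cos_pos_of_mem_Ioo ⟨by linarith, by linarith⟩
        have h5 : 0 < d * (Real.cos (c / 2) * -Real.cos ((b + c) / 2)) :=
          mul_pos hd0 (mul_pos hq1 (by linarith))
        have h6 : 0 < (d * Real.cos ((b + c) / 2)) ^ 2 := by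
          apply sq_pos_of_neg
          exact mul_neg_of_pos_of_neg hd0 hp1
        nlinarith
    · exact hn2 h3
    · have h4 := hl.m3 _ h3
      rw [← hd, ht] at h4
      refine CR.norm3 (d := -d) (d' := d) (α := c + b / 2) (β := b + c) (γ := c) ?_ ?_ h4
      · push_cast; ring
      · have e1 : c + b / 2 - (b + c) = -(b / 2) := by ring
        have e2 : c + b / 2 - c = b / 2 := by ring
        have e3' : b + c - c = b := by ring
        rw [e1, e2, e3', Real.cos_neg]
        have h5 : Real.cos b < 1 := by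
          have h7 := Real.sin_sq_add_cos_sq b
          by_contra h8
          push Not at h8
          nlinarith
        have h6 : 0 < d ^ 2 * (1 - Real.cos b) := mul_pos (by positivity) (by linarith)
        nlinarith
  -- step 3
  have hB := hl.not2_of hA
  rw [E_mul, show b + b / 2 = 3 * b / 2 by ring] at hB
  have hC : ¬ L1 (E (3 * b / 2)) := by
    apply hl.not1 e0 e3
    apply cos_lt_sin e0 e3 <;> linarith
  have hD : L3 (E (3 * b / 2)) := by
    rcases h.cov (E (3 * b / 2)) (norm_E _).le with h3 | h3 | h3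
    · exact absurd h3 hC
    · exact absurd h3 hB
    · exact h3
  have hv := h.g31 _ hD
  have hv' : giR c d (E (3 * b / 2)) = d + E (c - 3 * b / 2) := by
    simp only [giR]
    rw [conj_E, E_mul, show c + -(3 * b / 2) = c - 3 * b / 2 by ring]
  rw [hv'] at hv
  set v : ℂ := (d : ℂ) + E (c - 3 * b / 2) with hvd
  have h1 := h.r12 _ hv
  have h2 : ¬ L1 (E b * v) := fun h3 => h.n12 _ h3 h1
  have h3 := hl.not2_of h2
  have hnorm : ‖E b * (E b * v)‖ ≤ 1 := by
    rw [norm_E_mul, norm_E_mul]
    exact h.in1 _ hv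
  have hw : E b * (E b * v) = E (c + b / 2) + (d : ℂ) * E (2 * b) := by
    rw [hvd, ← mul_assoc, E_mul, mul_add, E_mul, show b + b + (c - 3 * b / 2) = c + b / 2 by ring,
      show b + b = 2 * b by ring]
    ring
  rcases h.cov _ hnorm with h4 | h4 | h4
  · have h5 := hl.m1 _ h4
    rw [← hd, hw] at h5
    refine CR.norm3 (d := d) (d' := -d) (α := c + b / 2) (β := 2 * b) (γ := 0) ?_ ?_ h5
    · rw [E_zero]; push_cast; ring
    · have e1 : c + b / 2 - 2 * b = (c - b / 2) - b := by ring
      have e2 : c + b / 2 - 0 = (c - b / 2) + b := by ring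
      have e3' : 2 * b - 0 = 2 * b := by ring
      rw [e1, e2, e3', Real.cos_two_mul, Real.cos_sub, Real.cos_add]
      have hp1 : 0 ≤ Real.sin (c - b / 2) :=
        Real.sin_nonneg_of_nonneg_of_le_pi (by linarith) (by linarith)
      have h6 : 0 ≤ d * (Real.sin (c - b / 2) * Real.sin b) :=
        mul_nonneg hd0.le (mul_nonneg hp1 hsb.le)
      have h7 : 0 < d ^ 2 * Real.sin b ^ 2 := by positivity
      have h8 := Real.sin_sq_add_cos_sq b
      have h9 : Real.cos b ^ 2 = 1 - Real.sin b ^ 2 := by linarith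
      rw [h9]
      nlinarith
  · exact h3 h4
  · have h5 := hl.m3 _ h4
    rw [← hd, hw] at h5
    refine CR.norm3 (d := d) (d' := d) (α := c + b / 2) (β := 2 * b) (γ := c) ?_ ?_ h5
    · rfl
    · have e1' : c + b / 2 - 2 * b = -((b - c / 2) + (b - c) / 2) := by ring
      have e2 : c + b / 2 - c = (b - c / 2) - (b - c) / 2 := by ring
      have e3' : 2 * b - c = 2 * (b - c / 2) := by ring
      rw [e1', e2, e3', Real.cos_neg, Real.cos_two_mul, Real.cos_sub, Real.cos_add]
      have hp1 : 0 < Real.cos (b - c / 2) :=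
        Real.cos_pos_of_mem_Ioo ⟨by linarith, by linarith⟩
      have hq1 : 0 < Real.cos ((b - c) / 2) :=
        Real.cos_pos_of_mem_Ioo ⟨by linarith, by linarith⟩
      have h6 : 0 < d * (Real.cos (b - c / 2) * Real.cos ((b - c) / 2)) :=
        mul_pos hd0 (mul_pos hp1 hq1)
      have h7 : 0 < (d * Real.cos (b - c / 2)) ^ 2 := by positivity
      nlinarith

end Pool.Agent.H908R3.Disc
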