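import Pool.Agent.H89.OD.L.H908R3_Disc_Cases

/-!
# Certificate for the orientation reversing case `c = 2 b - π`, `b < 2 π / 3`
-/

set_option autoImplicit false

namespace Pool.Agent.H908R3.Disc

open Complex ComplexConjugate

namespace R8

lemma E_three : E (3 * Real.pi / 2) = -Complex.I := by
  apply Complex.ext
  · rw [E_re]
    have : 3 * Real.pi / 2 = Real.pi / 2 + Real.pi := by ring
    rw [this, Real.cos_add_pi]
    simp
  · rw [E_im]
    have : 3 * Real.pi / 2 = Real.pi / 2 + Real.pi := by ring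
    rw [this, Real.sin_add_pi]
    simp

/-- inequality for both certificates -/
lemma ineq {p q d x y : ℝ} (hpq : p ^ 2 + q ^ 2 = 1) (hq : 0 < q) (hp : 0 < 1 + 2 * p)
    (hd : 0 < d) (hx : x = q + d * (p - p ^ 2 + q ^ 2)) (hy : y = -(p + d * (q + 2 * p * q))) :
    1 < x ^ 2 + y ^ 2 := by
  have h1 : x ^ 2 + y ^ 2 = 1 + 2 * (d * (q * (1 + 2 * p))) +
      (d * (p - p ^ 2 + q ^ 2)) ^ 2 + (d * (q + 2 * p * q)) ^ 2 := by
    rw [hx, hy]
    linear_combination (1 + 2 * d * q) * hpq
  have h2 : 0 < d * (q * (1 + 2 * p)) := mul_pos hd (mul_pos hq hp)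
  rw [h1]
  nlinarith [sq_nonneg (d * (p - p ^ 2 + q ^ 2)), sq_nonneg (d * (q + 2 * p * q))]

lemma ineq2 {p q d x y : ℝ} (hq : 0 < q) (hp : 0 < 1 + 2 * p)
    (hd : 0 < d) (hx : x = d * (p ^ 2 - q ^ 2) - d + d * p) (hy : y = 2 * d * p * q + 1 + d * q) :
    1 < x ^ 2 + y ^ 2 := by
  have h2 : 0 < d * (q * (1 + 2 * p)) := mul_pos hd (mul_pos hq hp)
  have h3 : y = 1 + d * (q * (1 + 2 * p)) := by rw [hy]; ring
  rw [h3]
  nlinarith [sq_nonneg x]

end R8

theorem caseR8 : CaseR8 := by
  intro b c e L1 L2 L3 he he' hbe hcfg hb hc hb3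
  have hpi := Real.pi_pos
  have hlab := hcfg.lab
  have hb0 : 0 < b := by linarith
  have hbpi : b < Real.pi := by linarith
  unfold CfgO at hcfg
  simp only [Bool.false_eq_true, if_false] at hcfg
  have hm3 := hlab.m3
  have hex3 : L3 (E (3 * Real.pi / 2)) := hlab.ex3 he he' hb0 hbpi (by linarith) (by linarith)
  have hdpos : 0 < 2 * Real.sin (e / 2) := by
    have := Real.sin_pos_of_pos_of_lt_pi (x := e / 2) (by linarith) (by linarith)
    linarith
  generalize 2 * Real.sin (e / 2) = d at hcfg hm3 hdpos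
  set p := Real.cos b with hp
  set q := Real.sin b with hq
  have hpq : p ^ 2 + q ^ 2 = 1 := by rw [hp, hq]; exact Real.cos_sq_add_sin_sq b
  have hqpos : 0 < q := Real.sin_pos_of_pos_of_lt_pi hb0 hbpi
  have hppos : 0 < 1 + 2 * p := by
    have h1 : Real.cos (2 * Real.pi / 3) < Real.cos b :=
      Real.cos_lt_cos_of_nonneg_of_le_pi hb0.le (by linarith) hb3
    have h2 : Real.cos (2 * Real.pi / 3) = -(1 / 2) := by
      have : 2 * Real.pi / 3 = Real.pi - Real.pi / 3 := by ring
      rw [this, Real.cos_pi_sub, Real.cos_pi_div_three]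
    rw [h2] at h1
    linarith
  have hEb : E b = ⟨p, q⟩ := Complex.ext (E_re b) (E_im b)
  have hEnb : E (-b) = ⟨p, -q⟩ := by
    apply Complex.ext
    · rw [E_re, Real.cos_neg]
    · rw [E_im, Real.sin_neg]
  have hEc : E c = ⟨-(p ^ 2 - q ^ 2), -(2 * p * q)⟩ := by
    have h1 : E c = - (E b * E b) := by
      rw [E_mul]
      have h2 : b + b = c + Real.pi := by rw [hc]; ring
      rw [h2, E_add_pi, neg_neg]
    rw [h1, hEb]
    apply Complex.ext
    · simp only [Complex.neg_re, Complex.mul_re]; ring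
    · simp only [Complex.neg_im, Complex.mul_im]; ring
  rw [R8.E_three] at hex3
  -- the point `u`
  set u : ℂ := giR c d (-Complex.I) with hu
  have hu1 : L1 u := hcfg.g31 _ hex3
  have huv : u = ⟨d + 2 * p * q, -(p ^ 2 - q ^ 2)⟩ := by
    rw [hu]
    unfold giR
    rw [hEc]
    apply Complex.ext <;> simp
  -- the point `r`
  have hEE : E b * E (-b) = 1 := by rw [E_mul, add_neg_cancel, E_zero]
  set r : ℂ := E (-b) * u with hr
  have hrn : ‖r‖ ≤ 1 := by rw [hr, norm_E_mul]; exact hcfg.in1 u hu1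
  have hr1 : ¬ L1 r := by
    intro h
    have h1 := hcfg.r12 _ h
    rw [hr, ← mul_assoc, hEE, one_mul] at h1
    exact hcfg.n12 u hu1 h1
  have hr3 : ¬ L3 r := by
    intro h
    have h1 := hm3 r h
    refine norm_gt_one ?_ h1
    apply R8.ineq hpq hqpos hppos hdpos
    · rw [hr, huv, hEnb, hEc]
      simp only [Complex.add_re, Complex.mul_re, Complex.ofReal_re, Complex.ofReal_im]
      linear_combination q * hpq
    · rw [hr, huv, hEnb, hEc]
      simp only [Complex.add_im, Complex.mul_im, Complex.ofReal_re, Complex.ofReal_im]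
      linear_combination (-p) * hpq
  have hr2 : L2 r := by
    rcases hcfg.cov r hrn with h | h | h
    · exact absurd h hr1
    · exact h
    · exact absurd h hr3
  -- the point `w`
  set w : ℂ := E (-b) * r with hw
  have hw1 : L1 w := hcfg.r21 _ hr2
  have hg3 : L3 (gR c d w) := hcfg.g13 _ hw1
  set t : ℂ := E (-b) * gR c d w with ht
  have htn : ‖t‖ ≤ 1 := by rw [ht, norm_E_mul]; exact hcfg.in3 _ hg3
  have ht1 : ¬ L1 t := by
    intro h
    have h1 := hcfg.r12 _ h
    rw [ht, ← mul_assoc, hEE, one_mul] at h1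
    exact hcfg.n23 _ h1 hg3
  have hcc : E c * E (-c) = 1 := by rw [E_mul, add_neg_cancel, E_zero]
  have hbbc : E (-b) * E (-b) * E c = -1 := by
    rw [E_mul, E_mul]
    have h2 : -b + -b + c = -Real.pi := by rw [hc]; ring
    rw [h2]
    have h3 := E_add_pi (-Real.pi)
    rw [neg_add_cancel, E_zero] at h3
    rw [h3]
    ring
  have ht2 : ¬ L2 t := by
    intro h
    have h1 := hcfg.r21 _ h
    have h2 : E (-b) * t = giR c d u := by
      rw [ht]
      unfold gR giR
      rw [← mul_assoc, ← mul_assoc, hbbc, hw, hr, map_mul, map_mul, conj_E, neg_neg]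
      have h3 : E b * E b * (E (-b) * E (-b) * E c) = E c := by
        linear_combination (E c * (E b * E (-b) + 1)) * hEE
      rw [hbbc] at h3
      linear_combination (conj u) * h3
    rw [h2] at h1
    have h4 := hcfg.g13 _ h1
    have h5 : gR c d (giR c d u) = u := by
      unfold gR giR
      rw [map_add, Complex.conj_ofReal, map_mul, Complex.conj_conj, conj_E]
      linear_combination u * hcc
    rw [h5] at h4
    exact hcfg.n13 u hu1 h4
  have ht3 : ¬ L3 t := by
    intro h
    have h1 := hm3 t h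
    have h2 : t + (d : ℂ) * E c = E c * (E (-b) * (conj w - d + d * E b)) := by
      rw [ht]
      unfold gR
      linear_combination (-(d : ℂ) * E c) * hEE
    rw [h2, norm_E_mul, norm_E_mul] at h1
    refine norm_gt_one ?_ h1
    have hwv : conj w = ⟨d * (p ^ 2 - q ^ 2), 2 * d * p * q + 1⟩ := by
      rw [hw, hr, map_mul, map_mul, conj_E, neg_neg, hEb, huv]
      apply Complex.ext
      · simp only [Complex.mul_re, Complex.mul_im, Complex.conj_re, Complex.conj_im]
        ring
      · simp only [Complex.mul_re, Complex.mul_im, Complex.conj_re, Complex.conj_im]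
        linear_combination (p ^ 2 + q ^ 2 + 1) * hpq
    apply R8.ineq2 (p := p) (q := q) (d := d) hqpos hppos hdpos
    · rw [hwv, hEb]
      simp only [Complex.add_re, Complex.sub_re, Complex.mul_re, Complex.ofReal_re,
        Complex.ofReal_im]
      ring
    · rw [hwv, hEb]
      simp only [Complex.add_im, Complex.sub_im, Complex.mul_im, Complex.ofReal_re,
        Complex.ofReal_im]
      ring
  rcases hcfg.cov t htn with h | h | h
  · exact ht1 h
  · exact ht2 h
  · exact ht3 h

end Pool.Agent.H908R3.Disc
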