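import Pool.Agent.H89.OD.L.H908R3_Disc_Cases

/-!
# Case R9
-/

set_option autoImplicit false

namespace Pool.Agent.H908R3.Disc

open Complex ComplexConjugate

namespace R9

theorem aux (C S d p q : ℝ) (h1 : C ^ 2 + S ^ 2 = 1) (hd : 0 < d) (hS : 0 < S)
    (hC : 1 + 2 * C < 0) (hpq : 2 * C * S * p - (C ^ 2 - S ^ 2) * q = -S - 2 * C * S) :
    1 < (2 * C * S + d * p) ^ 2 + (-(C ^ 2 - S ^ 2) + d * q) ^ 2 := by
  have e1 : (2 * C * S + d * p) ^ 2 + (-(C ^ 2 - S ^ 2) + d * q) ^ 2
      = (C ^ 2 + S ^ 2) ^ 2 + 2 * d * (2 * C * S * p - (C ^ 2 - S ^ 2) * q)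
        + d ^ 2 * (p ^ 2 + q ^ 2) := by ring
  rw [e1, h1, hpq]
  have h2 : 0 < d * (S * (-(1 + 2 * C))) := mul_pos hd (mul_pos hS (by linarith))
  have h3 : 0 ≤ d ^ 2 * (p ^ 2 + q ^ 2) := by positivity
  nlinarith

end R9

theorem caseR9 : CaseR9 := by
  intro b c e L1 L2 L3 hp h hc hb
  have hlab := h.lab
  have hpi := Real.pi_pos
  have he := hp.e0
  have he3 := hp.e3
  have hb0 := hp.b0
  have hbpi := hp.bpi
  have hcb := hp.cb
  have hcbe := hp.cbe
  unfold CfgO at h
  simp only [Bool.false_eq_true, if_false] at h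
  obtain ⟨d, hd⟩ : ∃ d : ℝ, d = 2 * Real.sin (e / 2) := ⟨_, rfl⟩
  rw [← hd] at h
  have hm1 : ∀ x, L1 x → ‖x - (d : ℂ)‖ ≤ 1 := by
    intro x hx
    rw [hd]
    exact hlab.m1 x hx
  have hd0 : 0 < d := by
    have := Real.sin_pos_of_pos_of_lt_pi (x := e / 2) (by linarith) (by linarith)
    rw [hd]
    linarith
  have hS : 0 < Real.sin b := Real.sin_pos_of_pos_of_lt_pi hb0 hbpi
  have hC : 1 + 2 * Real.cos b < 0 := by
    have h1 : Real.cos b < Real.cos (2 * Real.pi / 3) :=
      Real.cos_lt_cos_of_nonneg_of_le_pi (by linarith) hbpi.le hb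
    have h2 : Real.cos (2 * Real.pi / 3) = -(1 / 2) := by
      have h3 : 2 * Real.pi / 3 = Real.pi - Real.pi / 3 := by ring
      rw [h3, Real.cos_pi_sub, Real.cos_pi_div_three]
    linarith
  have hCS : Real.cos b ^ 2 + Real.sin b ^ 2 = 1 := Real.cos_sq_add_sin_sq b
  have hBB : E b * E (-b) = 1 := by rw [E_mul]; simp [E_zero]
  have hconj : conj (E b) = E (-b) := conj_E b
  have hconj' : conj (E (-b)) = E b := by rw [conj_E, neg_neg]
  have hEc : E c = -(E b * E b) := by
    have h1 : E (c + Real.pi) = - E c := E_add_pi c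
    have h2 : c + Real.pi = b + b := by rw [hc]; ring
    rw [h2, E_add] at h1
    rw [h1, neg_neg]
  have hEI : E (Real.pi / 2) = Complex.I := by
    rw [E_eq]; simp
  have hcu : conj (E (b - Real.pi / 2)) = Complex.I * E (-b) := by
    rw [conj_E]
    have h1 : -(b - Real.pi / 2) = Real.pi / 2 + -b := by ring
    rw [h1, E_add, hEI]
  have hI2 : Complex.I * Complex.I = -1 := Complex.I_mul_I
  -- u
  have hu : L1 (E (b - Real.pi / 2)) :=
    hlab.ex1 he he3 hb0 hbpi (by linarith) hcbe (by linarith) (by linarith)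
  -- G
  have hG : L3 (gR c d (E (b - Real.pi / 2))) := h.g13 _ hu
  obtain ⟨G, hGdef⟩ : ∃ G : ℂ, G = -Complex.I * E b + d * (E b) ^ 2 := ⟨_, rfl⟩
  have hGe : gR c d (E (b - Real.pi / 2)) = G := by
    unfold gR
    rw [hcu, hEc, hGdef]
    linear_combination (-Complex.I * E b) * hBB
  rw [hGe] at hG
  -- t
  obtain ⟨t, ht⟩ : ∃ t : ℂ, t = E b * G := ⟨_, rfl⟩
  have ht' : t = -Complex.I * (E b) ^ 2 + d * (E b) ^ 3 := by
    rw [ht, hGdef]; ring
  have htn : ‖t‖ ≤ 1 := by
    rw [ht, norm_E_mul]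
    exact h.in3 _ hG
  have ht2 : ¬ L2 t := by
    rw [ht]
    exact hlab.not2_of (fun h1 => h.n13 _ h1 hG)
  have ht1 : ¬ L1 t := by
    intro h1
    refine norm_gt_one ?_ (hm1 _ h1)
    have hre : (t - (d : ℂ)).re = 2 * Real.cos b * Real.sin b
        + d * (Real.cos b ^ 3 - 3 * Real.cos b * Real.sin b ^ 2 - 1) := by
      rw [ht']
      simp only [pow_succ, pow_zero, one_mul, Complex.sub_re, Complex.add_re, Complex.mul_re,
        Complex.mul_im, Complex.neg_re, Complex.neg_im, Complex.I_re, Complex.I_im,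
        Complex.ofReal_re, Complex.ofReal_im, E_re, E_im]
      ring
    have him : (t - (d : ℂ)).im = -(Real.cos b ^ 2 - Real.sin b ^ 2)
        + d * (3 * Real.cos b ^ 2 * Real.sin b - Real.sin b ^ 3) := by
      rw [ht']
      simp only [pow_succ, pow_zero, one_mul, Complex.sub_im, Complex.add_im, Complex.mul_re,
        Complex.mul_im, Complex.neg_re, Complex.neg_im, Complex.I_re, Complex.I_im,
        Complex.ofReal_re, Complex.ofReal_im, E_re, E_im]
      ring
    rw [hre, him]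
    refine R9.aux _ _ _ _ _ hCS hd0 hS hC ?_
    linear_combination (-Real.sin b * (Real.cos b ^ 2 + Real.sin b ^ 2 + 1)) * hCS
  have ht3 : L3 t := by
    rcases h.cov t htn with h1 | h1 | h1
    · exact absurd h1 ht1
    · exact absurd h1 ht2
    · exact h1
  -- z
  have hz : L1 (giR c d t) := h.g31 _ ht3
  obtain ⟨z, hzdef⟩ : ∃ z : ℂ, z = d - Complex.I - d * E (-b) := ⟨_, rfl⟩
  have hze : giR c d t = z := by
    unfold giR
    rw [ht', hEc, hzdef]
    simp only [map_add, map_mul, map_pow, map_neg, Complex.conj_I, Complex.conj_ofReal, hconj]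
    linear_combination (-Complex.I * (E b * E (-b) + 1) - d * E (-b) * (E b * E (-b) + 1)) * hBB
  rw [hze] at hz
  have hEz2 : L2 (E b * z) := h.r12 _ hz
  have hEz1 : ¬ L1 (E b * z) := fun h1 => h.n12 _ h1 hEz2
  -- y
  obtain ⟨y, hy⟩ : ∃ y : ℂ, y = E b * (E b * z) := ⟨_, rfl⟩
  have hy' : y = -Complex.I * (E b) ^ 2 + d * ((E b) ^ 2 - E b) := by
    rw [hy, hzdef]
    linear_combination (-d * E b) * hBB
  have hyn : ‖y‖ ≤ 1 := by
    rw [hy, norm_E_mul, norm_E_mul]
    exact h.in1 _ hz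
  have hy2 : ¬ L2 y := by
    rw [hy]
    exact hlab.not2_of hEz1
  have hy1 : ¬ L1 y := by
    intro h1
    refine norm_gt_one ?_ (hm1 _ h1)
    have hre : (y - (d : ℂ)).re = 2 * Real.cos b * Real.sin b
        + d * (Real.cos b ^ 2 - Real.sin b ^ 2 - Real.cos b - 1) := by
      rw [hy']
      simp only [pow_succ, pow_zero, one_mul, Complex.sub_re, Complex.add_re, Complex.mul_re,
        Complex.mul_im, Complex.neg_re, Complex.neg_im, Complex.I_re, Complex.I_im,
        Complex.sub_im, Complex.ofReal_re, Complex.ofReal_im, E_re, E_im]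
      ring
    have him : (y - (d : ℂ)).im = -(Real.cos b ^ 2 - Real.sin b ^ 2)
        + d * (2 * Real.cos b * Real.sin b - Real.sin b) := by
      rw [hy']
      simp only [pow_succ, pow_zero, one_mul, Complex.sub_im, Complex.add_im, Complex.mul_re,
        Complex.mul_im, Complex.neg_re, Complex.neg_im, Complex.I_re, Complex.I_im,
        Complex.sub_re, Complex.ofReal_re, Complex.ofReal_im, E_re, E_im]
      ring
    rw [hre, him]
    refine R9.aux _ _ _ _ _ hCS hd0 hS hC ?_
    linear_combination (-Real.sin b) * hCS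
  have hy3 : ¬ L3 y := by
    intro h1
    have h2 := h.g31 _ h1
    have h3 : giR c d y = E (-b) * G := by
      unfold giR
      rw [hy', hEc, hGdef]
      simp only [map_add, map_sub, map_mul, map_pow, map_neg, Complex.conj_I, Complex.conj_ofReal,
        hconj]
      linear_combination (-Complex.I * (E b * E (-b) + 1) + Complex.I
        - d * (E b * E (-b) + 1) + d * E b - d * E b) * hBB
    rw [h3] at h2
    have h4 := h.r12 _ h2
    rw [← mul_assoc, hBB, one_mul] at h4
    exact h.n23 _ h4 hG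
  rcases h.cov y hyn with h1 | h1 | h1
  · exact hy1 h1
  · exact hy2 h1
  · exact hy3 h1

end Pool.Agent.H908R3.Disc
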