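import Pool.Agent.H89.OD.L.H908R3_Disc_Defs

/-!
# Basic facts on labelled configurations: arcs on the unit circle
-/

set_option autoImplicit false

namespace Pool.Agent.H908R3.Disc

open Complex ComplexConjugate

theorem E_add (s t : ℝ) : E (s + t) = E s * E t := by
  unfold E
  rw [← Complex.exp_add]
  congr 1
  push_cast
  ring

theorem E_zero : E 0 = 1 := by simp [E]

theorem norm_E (t : ℝ) : ‖E t‖ = 1 := by
  unfold E
  exact Complex.norm_exp_ofReal_mul_I t

theorem E_eq (t : ℝ) : E t = Real.cos t + Real.sin t * Complex.I := by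
  unfold E
  rw [Complex.exp_mul_I, Complex.ofReal_cos, Complex.ofReal_sin]

theorem E_re (t : ℝ) : (E t).re = Real.cos t := by
  unfold E
  exact Complex.exp_ofReal_mul_I_re t

theorem E_im (t : ℝ) : (E t).im = Real.sin t := by
  unfold E
  exact Complex.exp_ofReal_mul_I_im t

theorem conj_E (t : ℝ) : conj (E t) = E (-t) := by
  apply Complex.ext
  · rw [Complex.conj_re, E_re, E_re, Real.cos_neg]
  · rw [Complex.conj_im, E_im, E_im, Real.sin_neg]

theorem E_mul (s t : ℝ) : E s * E t = E (s + t) := (E_add s t).symm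

theorem E_two_pi (t : ℝ) : E (t + 2 * Real.pi) = E t := by
  apply Complex.ext
  · rw [E_re, E_re, Real.cos_add_two_pi]
  · rw [E_im, E_im, Real.sin_add_two_pi]

theorem E_pi : E Real.pi = -1 := by
  apply Complex.ext
  · rw [E_re]; simp
  · rw [E_im]; simp

theorem E_add_pi (t : ℝ) : E (t + Real.pi) = - E t := by
  rw [E_add, E_pi]; ring

theorem normSq_eq (z : ℂ) : ‖z‖ ^ 2 = z.re ^ 2 + z.im ^ 2 := by
  rw [← Complex.normSq_eq_norm_sq, Complex.normSq_apply]; ring

/-- norm of `E a - P` in terms of coordinates -/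
theorem norm_gt_one {z : ℂ} (h : 1 < z.re ^ 2 + z.im ^ 2) : ¬ ‖z‖ ≤ 1 := by
  intro h'
  have h1 : ‖z‖ ^ 2 ≤ 1 := by nlinarith [norm_nonneg z]
  rw [normSq_eq] at h1
  linarith

theorem norm_le_one {z : ℂ} (h : z.re ^ 2 + z.im ^ 2 ≤ 1) : ‖z‖ ≤ 1 := by
  rw [← normSq_eq] at h
  nlinarith [norm_nonneg z]

/-- unpacked configuration used by all certificates: both orientations. -/
structure Lab (b c e : ℝ) (L1 L2 L3 : ℂ → Prop) : Prop where
  cov : ∀ x, ‖x‖ ≤ 1 → L1 x ∨ L2 x ∨ L3 x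
  in1 : ∀ x, L1 x → ‖x‖ ≤ 1
  in2 : ∀ x, L2 x → ‖x‖ ≤ 1
  in3 : ∀ x, L3 x → ‖x‖ ≤ 1
  n12 : ∀ x, L1 x → ¬ L2 x
  n13 : ∀ x, L1 x → ¬ L3 x
  n23 : ∀ x, L2 x → ¬ L3 x
  r12 : ∀ x, L1 x → L2 (E b * x)
  r21 : ∀ x, L2 x → L1 (E (-b) * x)
  m1 : ∀ x, L1 x → ‖x - ((2 * Real.sin (e/2) : ℝ) : ℂ)‖ ≤ 1
  m2 : ∀ x, L2 x → ‖x - ((2 * Real.sin (e/2) : ℝ) : ℂ) * E b‖ ≤ 1
  m3 : ∀ x, L3 x → ‖x + ((2 * Real.sin (e/2) : ℝ) : ℂ) * E c‖ ≤ 1

theorem norm_E_mul (t : ℝ) (z : ℂ) : ‖E t * z‖ = ‖z‖ := by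
  rw [norm_mul, norm_E, one_mul]

theorem CfgO.lab {o : Bool} {b c e : ℝ} {L1 L2 L3 : ℂ → Prop} (h : CfgO o b c e L1 L2 L3) :
    Lab b c e L1 L2 L3 := by
  have key : ∀ (g gi : ℂ → ℂ), Cfg b g gi L1 L2 L3 →
      (∀ x, ‖g x‖ = ‖x - ((2 * Real.sin (e/2) : ℝ) : ℂ)‖) →
      (∀ x, ‖gi x‖ = ‖x + ((2 * Real.sin (e/2) : ℝ) : ℂ) * E c‖) → True →
      (∀ x, ‖gi x - ((2 * Real.sin (e/2) : ℝ) : ℂ)‖ = ‖x‖) → Lab b c e L1 L2 L3 := by
    intro g gi H hg hgi _ hgi'
    refine ⟨H.cov, H.in1, H.in2, H.in3, H.n12, H.n13, H.n23, H.r12, H.r21, ?_, ?_, ?_⟩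
    · intro x hx
      rw [← hg]
      exact H.in3 _ (H.g13 x hx)
    · intro x hx
      have h1 := H.r21 x hx
      have h2 := H.in3 _ (H.g13 _ h1)
      rw [hg] at h2
      have h3 : x - ((2 * Real.sin (e/2) : ℝ) : ℂ) * E b
          = E b * (E (-b) * x - ((2 * Real.sin (e/2) : ℝ) : ℂ)) := by
        have h4 : E b * E (-b) = 1 := by rw [E_mul]; simp [E_zero]
        linear_combination (-x) * h4
      rw [h3, norm_E_mul]
      exact h2
    · intro x hx
      have h1 := H.g31 x hx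
      have h2 := H.in1 _ h1
      rw [hgi] at h2
      exact h2
  unfold CfgO at h
  cases o with
  | true =>
    simp only [if_true] at h
    refine key _ _ h ?_ ?_ trivial ?_
    · intro x
      simp only [gP]
      rw [norm_E_mul]
    · intro x
      simp only [giP]
      have h4 : E c * E (-c) = 1 := by rw [E_mul]; simp [E_zero]
      have h3 : x + ((2 * Real.sin (e/2) : ℝ) : ℂ) * E c
          = E c * (((2 * Real.sin (e/2) : ℝ) : ℂ) + E (-c) * x) := by
        linear_combination (-x) * h4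
      rw [h3, norm_E_mul]
    · intro x
      simp only [giP]
      rw [add_sub_cancel_left, norm_E_mul]
  | false =>
    simp only [Bool.false_eq_true, if_false] at h
    refine key _ _ h ?_ ?_ trivial ?_
    · intro x
      simp only [gR]
      rw [norm_E_mul]
      rw [← Complex.norm_conj, map_sub, Complex.conj_conj, Complex.conj_ofReal]
    · intro x
      simp only [giR]
      have h4 : E (-c) * E c = 1 := by rw [E_mul]; simp [E_zero]
      have h5 : ‖((2 * Real.sin (e/2) : ℝ) : ℂ) + E c * conj x‖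
          = ‖((2 * Real.sin (e/2) : ℝ) : ℂ) + E (-c) * x‖ := by
        rw [← Complex.norm_conj, map_add, map_mul, Complex.conj_conj, Complex.conj_ofReal, conj_E]
      rw [h5]
      have h3 : x + ((2 * Real.sin (e/2) : ℝ) : ℂ) * E c
          = E c * (((2 * Real.sin (e/2) : ℝ) : ℂ) + E (-c) * x) := by
        linear_combination (-x) * h4
      rw [h3, norm_E_mul]
    · intro x
      simp only [giR]
      rw [add_sub_cancel_left, norm_E_mul, Complex.norm_conj]

/-- `cos t < sin (e/2)` on the complementary arc. -/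
theorem cos_lt_sin {t e : ℝ} (he : 0 < e) (he' : e ≤ Real.pi / 3)
    (h1 : Real.pi / 2 - e / 2 < t) (h2 : t < 3 * Real.pi / 2 + e / 2) :
    Real.cos t < Real.sin (e / 2) := by
  have hpi := Real.pi_pos
  rw [← Real.cos_pi_div_two_sub]
  by_cases ht : t ≤ Real.pi
  · apply Real.cos_lt_cos_of_nonneg_of_le_pi <;> linarith
  · push Not at ht
    have h3 : Real.cos t = Real.cos (2 * Real.pi - t) := by
      rw [Real.cos_two_pi_sub]
    rw [h3]
    apply Real.cos_lt_cos_of_nonneg_of_le_pi <;> linarith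

section S
variable {b c e : ℝ} {L1 L2 L3 : ℂ → Prop}

theorem Lab.not1 (h : Lab b c e L1 L2 L3) (he : 0 < e) (he' : e ≤ Real.pi / 3) {a : ℝ}
    (ha : Real.cos a < Real.sin (e / 2)) : ¬ L1 (E a) := by
  intro h1
  have h2 := h.m1 _ h1
  have hs : 0 < Real.sin (e/2) := Real.sin_pos_of_pos_of_lt_pi (by linarith)
    (by have := Real.pi_pos; linarith)
  refine norm_gt_one ?_ h2
  simp only [Complex.sub_re, Complex.sub_im, Complex.ofReal_re, Complex.ofReal_im, E_re, E_im]
  nlinarith [Real.sin_sq_add_cos_sq a]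

theorem Lab.not2 (h : Lab b c e L1 L2 L3) (he : 0 < e) (he' : e ≤ Real.pi / 3) {a : ℝ}
    (ha : Real.cos (a - b) < Real.sin (e / 2)) : ¬ L2 (E a) := by
  intro h1
  have h2 := h.r21 _ h1
  rw [E_mul] at h2
  have h3 : -b + a = a - b := by ring
  rw [h3] at h2
  exact h.not1 he he' ha h2

theorem Lab.not3 (h : Lab b c e L1 L2 L3) (he : 0 < e) (he' : e ≤ Real.pi / 3) {a : ℝ}
    (ha : - Real.cos (a - c) < Real.sin (e / 2)) : ¬ L3 (E a) := by
  intro h1
  have h2 := h.m3 _ h1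
  have hs : 0 < Real.sin (e/2) := Real.sin_pos_of_pos_of_lt_pi (by linarith)
    (by have := Real.pi_pos; linarith)
  refine norm_gt_one ?_ h2
  simp only [Complex.add_re, Complex.add_im, Complex.mul_re, Complex.mul_im,
    Complex.ofReal_re, Complex.ofReal_im, E_re, E_im]
  rw [Real.cos_sub] at ha
  have h6 : 0 < Real.sin (e/2) * (Real.cos a * Real.cos c + Real.sin a * Real.sin c
    + Real.sin (e/2)) := mul_pos hs (by linarith)
  have h7 : (Real.cos a + (2 * Real.sin (e / 2) * Real.cos c - 0 * Real.sin c)) ^ 2 +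
      (Real.sin a + (2 * Real.sin (e / 2) * Real.sin c + 0 * Real.cos c)) ^ 2
      = (Real.sin a ^ 2 + Real.cos a ^ 2) + 4 * (Real.sin (e/2) * (Real.cos a * Real.cos c
        + Real.sin a * Real.sin c)) + 4 * Real.sin (e/2) ^ 2
          * (Real.sin c ^ 2 + Real.cos c ^ 2) := by ring
  rw [h7, Real.sin_sq_add_cos_sq, Real.sin_sq_add_cos_sq]
  nlinarith [h6]

/-- exclusive-1 arc. -/
theorem Lab.ex1 (h : Lab b c e L1 L2 L3) (he : 0 < e) (he' : e ≤ Real.pi / 3)
    (_hb : 0 < b) (hb' : b < Real.pi) (hc : 0 < c) (hcb : c ≤ b - e) {a : ℝ}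
    (h1 : c - Real.pi / 2 - e / 2 < a) (h2 : a < b - Real.pi / 2 + e / 2) : L1 (E a) := by
  have hpi := Real.pi_pos
  rcases h.cov (E a) (norm_E a).le with h3 | h3 | h3
  · exact h3
  · exfalso
    refine h.not2 he he' ?_ h3
    have h4 : Real.cos (a - b) = Real.cos (a - b + 2 * Real.pi) := by
      rw [Real.cos_add_two_pi]
    rw [h4]
    apply cos_lt_sin he he' <;> linarith
  · exfalso
    refine h.not3 he he' ?_ h3
    have h4 : - Real.cos (a - c) = Real.cos (a - c + Real.pi) := by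
      rw [Real.cos_add_pi]
    rw [h4]
    apply cos_lt_sin he he' <;> linarith

/-- exclusive-2 arc. -/
theorem Lab.ex2 (h : Lab b c e L1 L2 L3) (he : 0 < e) (he' : e ≤ Real.pi / 3)
    (_hb : 0 < b) (hb' : b < Real.pi) (hc : 0 < c) (hcb : c ≤ b - e) {a : ℝ}
    (h1 : Real.pi / 2 - e / 2 < a) (h2 : a < c + Real.pi / 2 + e / 2) : L2 (E a) := by
  have hpi := Real.pi_pos
  rcases h.cov (E a) (norm_E a).le with h3 | h3 | h3
  · exfalso
    refine h.not1 he he' ?_ h3
    apply cos_lt_sin he he' <;> linarith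
  · exact h3
  · exfalso
    refine h.not3 he he' ?_ h3
    have h4 : - Real.cos (a - c) = Real.cos (a - c + Real.pi) := by
      rw [Real.cos_add_pi]
    rw [h4]
    apply cos_lt_sin he he' <;> linarith

/-- exclusive-3 arc. -/
theorem Lab.ex3 (h : Lab b c e L1 L2 L3) (he : 0 < e) (he' : e ≤ Real.pi / 3)
    (_hb : 0 < b) (hb' : b < Real.pi) {a : ℝ}
    (h1 : b + Real.pi / 2 - e / 2 < a) (h2 : a < 3 * Real.pi / 2 + e / 2) : L3 (E a) := by
  have hpi := Real.pi_pos
  rcases h.cov (E a) (norm_E a).le with h3 | h3 | h3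
  · exfalso
    refine h.not1 he he' ?_ h3
    apply cos_lt_sin he he' <;> linarith
  · exfalso
    refine h.not2 he he' ?_ h3
    apply cos_lt_sin he he' <;> linarith
  · exact h3

/-- sure-1 arc. -/
theorem Lab.sure1 (h : Lab b c e L1 L2 L3) (he : 0 < e) (he' : e ≤ Real.pi / 3)
    (hb : 0 < b) (hb' : b < Real.pi) (hc : 0 < c) (hcb : c ≤ b - e) {a : ℝ}
    (h1 : Real.pi / 2 - e / 2 - b < a) (h2 : a < c - b + Real.pi / 2 + e / 2) : L1 (E a) := by
  have h3 : L2 (E (a + b)) := h.ex2 he he' hb hb' hc hcb (by linarith) (by linarith)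
  have h4 := h.r21 _ h3
  rw [E_mul] at h4
  have h5 : -b + (a + b) = a := by ring
  rwa [h5] at h4

/-- sure-3 arc (for `2 b ≥ π + e`). -/
theorem Lab.sure3 (h : Lab b c e L1 L2 L3) (he : 0 < e) (he' : e ≤ Real.pi / 3)
    (hb : 0 < b) (hb' : b < Real.pi) (hc : 0 < c) (hcb : c ≤ b - e)
    (h2b : Real.pi + e ≤ 2 * b) {a : ℝ}
    (h1 : b + Real.pi / 2 - e / 2 < a ∨ 2 * b + c - Real.pi / 2 - e / 2 < a)
    (h2 : a < 3 * Real.pi / 2 + e / 2 ∨ a < 5 * Real.pi / 2 + c - 2 * b + e / 2) :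
    L3 (E a) := by
  have hpi := Real.pi_pos
  by_cases hA : b + Real.pi / 2 - e / 2 < a
  · by_cases hB : a < 3 * Real.pi / 2 + e / 2
    · exact h.ex3 he he' hb hb' hA hB
    · push Not at hB
      have hB2 : a < 5 * Real.pi / 2 + c - 2 * b + e / 2 := by
        rcases h2 with h2 | h2
        · exact absurd h2 (not_lt.mpr hB)
        · exact h2
      rcases h.cov (E a) (norm_E a).le with h3 | h3 | h3
      · exfalso
        have h4 := h.r12 _ h3
        rw [E_mul] at h4
        have h5 : L2 (E (a + 2 * b - 2 * Real.pi)) :=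
          h.ex2 he he' hb hb' hc hcb (by linarith) (by linarith)
        have h6 := h.r21 _ h5
        rw [E_mul] at h6
        have h7 : E (-b + (a + 2 * b - 2 * Real.pi)) = E (b + a) := by
          rw [← E_two_pi (-b + (a + 2 * b - 2 * Real.pi))]
          congr 1
          ring
        rw [h7] at h6
        exact h.n12 _ h6 h4
      · exfalso
        refine h.not2 he he' ?_ h3
        apply cos_lt_sin he he' <;> linarith
      · exact h3
  · push Not at hA
    have hA2 : 2 * b + c - Real.pi / 2 - e / 2 < a := by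
      rcases h1 with h1 | h1
      · exact absurd h1 (not_lt.mpr hA)
      · exact h1
    rcases h.cov (E a) (norm_E a).le with h3 | h3 | h3
    · exfalso
      refine h.not1 he he' ?_ h3
      apply cos_lt_sin he he' <;> linarith
    · exfalso
      have h4 := h.r21 _ h3
      rw [E_mul] at h4
      have h5 : L1 (E (a - 2 * b)) := h.ex1 he he' hb hb' hc hcb (by linarith) (by linarith)
      have h6 := h.r12 _ h5
      rw [E_mul] at h6
      have h7 : b + (a - 2 * b) = -b + a := by ring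
      rw [h7] at h6
      exact h.n12 _ h4 h6
    · exact h3

/-- `3`-label goes to `¬ 1` under the rotation. -/
theorem Lab.not2_of (h : Lab b c e L1 L2 L3) {x : ℂ} (hx : ¬ L1 x) : ¬ L2 (E b * x) := by
  intro h1
  have h2 := h.r21 _ h1
  rw [← mul_assoc, E_mul] at h2
  have h3 : -b + b = 0 := by ring
  rw [h3, E_zero, one_mul] at h2
  exact hx h2

theorem Lab.not1_of (h : Lab b c e L1 L2 L3) {x : ℂ} (hx : ¬ L2 x) : ¬ L1 (E (-b) * x) := by
  intro h1
  have h2 := h.r12 _ h1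
  rw [← mul_assoc, E_mul] at h2
  have h3 : b + -b = 0 := by ring
  rw [h3, E_zero, one_mul] at h2
  exact hx h2

end S

end Pool.Agent.H908R3.Disc
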