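import Pool.Agent.H89.OD.L.H908R3_Disc_Cases

/-!
# Case 1 of the disc certificates
-/

set_option autoImplicit false

namespace Pool.Agent.H908R3.Disc

theorem case1 : Case1 := by
  intro o b c e L1 L2 L3 hp hcfg h1 h2
  obtain ⟨b0, bpi, e0, e3, cb, cbe, bpe⟩ := hp
  have h := hcfg.lab
  have hc : 0 < c := by linarith
  have hmm : max (c - Real.pi / 2 - e / 2) (Real.pi / 2 - e / 2 - 2 * b)
      < min (b - Real.pi / 2 + e / 2) (c - 2 * b + Real.pi / 2 + e / 2) := by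
    rw [max_lt_iff, lt_min_iff, lt_min_iff]
    refine ⟨⟨?_, ?_⟩, ?_, ?_⟩ <;> linarith
  obtain ⟨a, ha1, ha2⟩ := exists_between hmm
  rw [max_lt_iff] at ha1
  rw [lt_min_iff] at ha2
  have h3 : L1 (E a) := h.ex1 e0 e3 b0 bpi hc cbe ha1.1 ha2.1
  have h4 : L2 (E (a + 2 * b)) :=
    h.ex2 e0 e3 b0 bpi hc cbe (by linarith [ha1.2]) (by linarith [ha2.2])
  have h5 := h.r12 _ h3
  have h6 := h.r21 _ h4
  rw [E_mul] at h5 h6
  have h7 : -b + (a + 2 * b) = b + a := by ring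
  rw [h7] at h6
  exact h.n12 _ h6 h5

end Pool.Agent.H908R3.Disc
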