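import Pool.Agent.H89.OD.L.H908R3_Disc_Defs

set_option autoImplicit false

namespace Pool.Agent.H908R3.Disc.TD

open Complex ComplexConjugate

lemma E_add (s t : ℝ) : E (s + t) = E s * E t := by
  unfold E
  rw [← Complex.exp_add]
  push_cast
  ring_nf

lemma E_zero : E 0 = 1 := by simp [E]

lemma E_mul_neg (t : ℝ) : E t * E (-t) = 1 := by rw [← E_add, add_neg_cancel, E_zero]

lemma E_neg_mul (t : ℝ) : E (-t) * E t = 1 := by rw [← E_add, neg_add_cancel, E_zero]

lemma conj_E (t : ℝ) : conj (E t) = E (-t) := by
  unfold E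
  rw [← Complex.exp_conj]
  congr 1
  simp [Complex.conj_ofReal]

lemma norm_E (t : ℝ) : ‖E t‖ = 1 := by
  unfold E
  exact Complex.norm_exp_ofReal_mul_I t

lemma conj_mul_of_norm {v : ℂ} (hv : ‖v‖ = 1) : conj v * v = 1 := by
  rw [← Complex.normSq_eq_conj_mul_self, Complex.normSq_eq_norm_sq, hv]
  norm_num

/-- the mirror image of a configuration -/
lemma mirror {o : Bool} {b c e : ℝ} {L1 L2 L3 : ℂ → Prop} (h : CfgO o b c e L1 L2 L3) :
    CfgO o b (b - c) e (fun x => L2 (E b * conj x)) (fun x => L1 (E b * conj x))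
      (fun x => L3 (E b * conj x)) := by
  have hn : ∀ x, ‖E b * conj x‖ = ‖x‖ := fun x => by
    rw [norm_mul, norm_E, one_mul, Complex.norm_conj]
  have e1 : ∀ x, E (-b) * (E b * x) = x := fun x => by
    rw [← mul_assoc, E_neg_mul, one_mul]
  have key : ∀ (g gi g' gi' : ℂ → ℂ), Cfg b g gi L1 L2 L3 →
      (∀ x, E b * conj (g' x) = g (conj x)) →
      (∀ x, E b * conj (gi' x) = E b * gi (E b * conj x)) →
      Cfg b g' gi' (fun x => L2 (E b * conj x)) (fun x => L1 (E b * conj x))
        (fun x => L3 (E b * conj x)) := by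
    intro g gi g' gi' h hg hgi
    refine ⟨?_, ?_, ?_, ?_, ?_, ?_, ?_, ?_, ?_, ?_, ?_⟩
    · intro x hx
      rcases h.cov (E b * conj x) (by rw [hn]; exact hx) with h1 | h1 | h1
      · exact Or.inr (Or.inl h1)
      · exact Or.inl h1
      · exact Or.inr (Or.inr h1)
    · intro x hx
      rw [← hn]; exact h.in2 _ hx
    · intro x hx
      rw [← hn]; exact h.in1 _ hx
    · intro x hx
      rw [← hn]; exact h.in3 _ hx
    · intro x hx h1
      exact h.n12 _ h1 hx
    · intro x hx h1
      exact h.n23 _ hx h1
    · intro x hx h1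
      exact h.n13 _ hx h1
    · intro x hx
      have := h.r21 _ hx
      rw [e1] at this
      change L1 (E b * conj (E b * x))
      rw [map_mul, conj_E, ← mul_assoc, E_mul_neg, one_mul]
      exact this
    · intro x hx
      have := h.r12 _ hx
      change L2 (E b * conj (E (-b) * x))
      rw [map_mul, conj_E, neg_neg]
      exact this
    · intro x hx
      have h1 := h.r21 _ hx
      rw [e1] at h1
      have h2 := h.g13 _ h1
      change L3 (E b * conj (g' x))
      rw [hg]
      exact h2
    · intro x hx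
      have h1 := h.g31 _ hx
      have h2 := h.r12 _ h1
      change L2 (E b * conj (gi' x))
      rw [hgi]
      exact h2
  have hbc : E b * E (-(b - c)) = E c := by
    rw [← E_add]; congr 1; ring
  cases o
  · simp only [CfgO, Bool.false_eq_true, if_false] at h ⊢
    refine key _ _ _ _ h ?_ ?_
    · intro x
      simp only [gR, map_mul, map_sub, Complex.conj_conj, conj_E, Complex.conj_ofReal]
      rw [← mul_assoc, hbc]
    · intro x
      simp only [giR, map_mul, map_add, Complex.conj_conj, conj_E, Complex.conj_ofReal]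
      congr 2
      have h1 : E c * (E (-b) * x) = E (-(b - c)) * x := by
        rw [← mul_assoc, ← E_add]; congr 2; ring
      rw [h1]
  · simp only [CfgO, if_true] at h ⊢
    refine key _ _ _ _ h ?_ ?_
    · intro x
      simp only [gP, map_mul, map_sub, conj_E, Complex.conj_ofReal]
      rw [← mul_assoc, hbc]
    · intro x
      simp only [giP, map_mul, map_add, conj_E, Complex.conj_ofReal]
      congr 2
      have h1 : E (-c) * (E b * conj x) = E (- -(b - c)) * conj x := by
        rw [← mul_assoc, ← E_add]; congr 2; ring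
      rw [h1]

/-- build a configuration -/
lemma mkCfg {b : ℝ} {A : Set ℂ} {g g' gi : ℂ → ℂ} {σ : ℂ} (hσ : ‖σ‖ = 1)
    (hP : Part A (fun x => E b * x) g) (h1 : ∀ x, σ * g' x = g (σ * x))
    (h2 : ∀ x a, σ * x = g a → σ * gi x = a) :
    Cfg b g' gi (fun x => σ * x ∈ A) (fun x => σ * x ∈ (fun x => E b * x) '' A)
      (fun x => σ * x ∈ g '' A) := by
  obtain ⟨hc, d1, d2, d3⟩ := hP
  have hn : ∀ x, ‖σ * x‖ = ‖x‖ := fun x => by rw [norm_mul, hσ, one_mul]
  have hmem : ∀ x, σ * x ∈ A ∪ (fun x => E b * x) '' A ∪ g '' A ↔ ‖x‖ ≤ 1 := by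
    intro x
    rw [hc, mem_closedBall_zero_iff, hn]
  refine ⟨?_, ?_, ?_, ?_, ?_, ?_, ?_, ?_, ?_, ?_, ?_⟩
  · intro x hx
    rcases (hmem x).2 hx with (h | h) | h
    · exact Or.inl h
    · exact Or.inr (Or.inl h)
    · exact Or.inr (Or.inr h)
  · intro x hx
    exact (hmem x).1 (Or.inl (Or.inl hx))
  · intro x hx
    exact (hmem x).1 (Or.inl (Or.inr hx))
  · intro x hx
    exact (hmem x).1 (Or.inr hx)
  · intro x hx h
    exact Set.disjoint_left.1 d1 hx h
  · intro x hx h
    exact Set.disjoint_left.1 d2 hx h
  · intro x hx h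
    exact Set.disjoint_left.1 d3 hx h
  · intro x hx
    refine ⟨σ * x, hx, ?_⟩
    change E b * (σ * x) = σ * (E b * x)
    ring
  · rintro x ⟨a, ha, hax⟩
    have hax' : E b * a = σ * x := hax
    change σ * (E (-b) * x) ∈ A
    have : σ * (E (-b) * x) = a := by
      calc σ * (E (-b) * x) = E (-b) * (σ * x) := by ring
        _ = E (-b) * (E b * a) := by rw [hax']
        _ = a := by rw [← mul_assoc, E_neg_mul, one_mul]
    rw [this]
    exact ha
  · intro x hx
    exact ⟨σ * x, hx, (h1 x).symm⟩
  · rintro x ⟨a, ha, hax⟩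
    change σ * gi x ∈ A
    rw [h2 x a hax.symm]
    exact ha

lemma core_pos (H : Core3) {b : ℝ} (hb0 : 0 < b) (hb1 : b < Real.pi) {A : Set ℂ} {o : Bool}
    {v q : ℂ} (hv : ‖v‖ = 1) (hq : q ≠ 0) (hq1 : ‖q‖ ≤ 1) {g : ℂ → ℂ}
    (hg : ∀ x, g x = if o then v * (x - q) else v * (conj x - conj q))
    (hP : Part A (fun x => E b * x) g) : False := by
  set d : ℝ := ‖q‖ with hd
  have hd0 : 0 < d := norm_pos_iff.2 hq
  have hdC : (d : ℂ) ≠ 0 := by exact_mod_cast hd0.ne'
  set σ : ℂ := q / d with hσdef
  have hσ : ‖σ‖ = 1 := by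
    rw [hσdef, norm_div, Complex.norm_real, Real.norm_of_nonneg hd0.le, ← hd, div_self hd0.ne']
  have hσd : σ * d = q := by rw [hσdef]; field_simp
  have hcσ : conj σ * σ = 1 := conj_mul_of_norm hσ
  have hcσd : conj σ * d = conj q := by
    rw [← hσd, map_mul, Complex.conj_ofReal]
  have hcv : conj v * v = 1 := conj_mul_of_norm hv
  set e : ℝ := 2 * Real.arcsin (d / 2) with he
  have hs : 2 * Real.sin (e / 2) = d := by
    have : e / 2 = Real.arcsin (d / 2) := by rw [he]; ring
    rw [this, Real.sin_arcsin (by linarith) (by linarith)]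
    ring
  have he0 : 0 < e := by
    rw [he]
    have := Real.arcsin_pos.2 (show 0 < d / 2 by positivity)
    linarith
  have he1 : e ≤ Real.pi / 3 := by
    rw [he]
    have h1 : Real.arcsin (d / 2) ≤ Real.pi / 6 := by
      rw [Real.arcsin_le_iff_le_sin' ⟨by linarith [Real.pi_pos], by linarith [Real.pi_pos]⟩]
      rw [Real.sin_pi_div_six]
      linarith
    linarith
  set w : ℂ := if o then v else (conj σ) ^ 2 * v with hw
  have hw1 : ‖w‖ = 1 := by
    rw [hw]
    split_ifs
    · exact hv
    · rw [norm_mul, norm_pow, Complex.norm_conj, hσ, hv]; norm_num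
  set θ : ℝ := Complex.arg (w * E (-(b / 2))) with hθ
  have hEθ : E θ = w * E (-(b / 2)) := by
    have h1 : ‖w * E (-(b / 2))‖ = 1 := by rw [norm_mul, hw1, norm_E]; norm_num
    have h2 := Complex.norm_mul_exp_arg_mul_I (w * E (-(b / 2)))
    rw [h1] at h2
    simpa [E, hθ] using h2
  have hθ1 : θ ≤ Real.pi := Complex.arg_le_pi _
  have hθ2 : -Real.pi < θ := Complex.neg_pi_lt_arg _
  set c : ℝ := b / 2 + θ with hc
  have hEc : E c = w := by
    rw [hc, E_add, hEθ]
    calc E (b / 2) * (w * E (-(b / 2))) = w * (E (b / 2) * E (-(b / 2))) := by ring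
      _ = w := by rw [E_mul_neg, mul_one]
  have hEc' : E (-c) = conj w := by rw [← hEc, conj_E]
  have hC : CfgO o b c e (fun x => σ * x ∈ A) (fun x => σ * x ∈ (fun x => E b * x) '' A)
      (fun x => σ * x ∈ g '' A) := by
    unfold CfgO
    cases o
    · simp only [Bool.false_eq_true, if_false] at hg hw ⊢
      refine mkCfg hσ hP ?_ ?_
      · intro x
        rw [hg, gR, hs, hEc, hw, map_mul]
        linear_combination (conj σ * v * (conj x - d)) * hcσ - v * hcσd
      · intro x a hx
        rw [hg] at hx
        rw [giR, hs, hEc, hw]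
        have h3 : conj a = conj q + conj v * (σ * x) := by
          rw [hx]
          linear_combination (-(conj a - conj q)) * hcv
        have h4 : a = q + v * (conj σ * conj x) := by
          have := congrArg conj h3
          simpa [map_add, map_mul, Complex.conj_conj] using this
        rw [h4]
        linear_combination (conj σ * v * conj x) * hcσ + hσd
    · simp only [if_true] at hg hw ⊢
      refine mkCfg hσ hP ?_ ?_
      · intro x
        rw [hg, gP, hs, hEc, hw]
        linear_combination (-v) * hσd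
      · intro x a hx
        rw [hg] at hx
        rw [giP, hs, hEc', hw]
        have h3 : a = q + conj v * (σ * x) := by
          rw [hx]
          linear_combination (-(a - q)) * hcv
        rw [h3]
        linear_combination hσd
  by_cases h0 : 0 ≤ θ
  · exact H o b c e _ _ _ hb0 hb1 he0 he1 (by rw [hc]; linarith) (by rw [hc]; linarith) hC
  · push Not at h0
    exact H o b (b - c) e _ _ _ hb0 hb1 he0 he1 (by rw [hc]; linarith) (by rw [hc]; linarith)
      (mirror hC)

/-- two opposite unit vectors cannot both be in the third piece -/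
lemma two_opp {A : Set ℂ} {g : ℂ → ℂ} {q : ℂ} (hA : ∀ x ∈ A, ‖x‖ ≤ 1) (hq : q ≠ 0)
    (hg : ∀ x, ‖g x‖ = ‖x - q‖) (hinj : ∀ x y, g x = - g y → x - q = -(y - q)) {a : ℂ}
    (ha : ‖a‖ = 1) (h1 : a ∈ g '' A) (h2 : -a ∈ g '' A) : False := by
  obtain ⟨x, hx, rfl⟩ := h1
  obtain ⟨y, hy, hxy⟩ := h2
  have h3 := hinj y x hxy
  have hp := parallelogram_law_with_norm ℝ (x - q) q
  have e1 : x - q + q = x := by ring
  have e2 : ‖x - q - q‖ = ‖y‖ := by
    have : x - q - q = -y := by linear_combination h3
    rw [this, norm_neg]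
  rw [e1, e2, ← hg, ha] at hp
  have h4 := hA x hx
  have h5 := hA y hy
  have h6 : 0 < ‖q‖ := norm_pos_iff.2 hq
  nlinarith [norm_nonneg x, norm_nonneg y]

end Pool.Agent.H908R3.Disc.TD

namespace Pool.Agent.H908R3.Disc

open Complex ComplexConjugate TD

theorem taskD : TaskD := by
  intro H A R g hR hg hR0 hP
  obtain ⟨u, t, hu, hRx⟩ := hR
  obtain ⟨v, s, hv, hgx⟩ := hg
  have ht : t = 0 := by
    rcases hRx with h | h
    · have := h 0; rw [hR0] at this; simpa using this.symm
    · have := h 0; rw [hR0] at this; simpa using this.symm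
  subst ht
  simp only [add_zero] at hRx
  have hcv : conj v * v = 1 := conj_mul_of_norm hv
  have hRn : ∀ x, ‖R x‖ = ‖x‖ := by
    intro x
    rcases hRx with h | h
    · rw [h, norm_mul, hu, one_mul]
    · rw [h, norm_mul, hu, one_mul, Complex.norm_conj]
  obtain ⟨hc, d1, d2, d3⟩ := hP
  have hmem : ∀ x, x ∈ A ∪ R '' A ∪ g '' A ↔ ‖x‖ ≤ 1 := by
    intro x
    rw [hc, mem_closedBall_zero_iff]
  have hA1 : ∀ x ∈ A, ‖x‖ ≤ 1 := fun x hx => (hmem x).1 (Or.inl (Or.inl hx))
  have h0A : (0 : ℂ) ∉ A := fun h => Set.disjoint_left.1 d1 h ⟨0, h, hR0⟩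
  have h0R : (0 : ℂ) ∉ R '' A := by
    rintro ⟨a, ha, h⟩
    have : a = 0 := by
      rw [← norm_eq_zero, ← hRn, h, norm_zero]
    exact h0A (this ▸ ha)
  obtain ⟨q, hqA, hq0⟩ : (0 : ℂ) ∈ g '' A := by
    rcases (hmem 0).2 (by simp) with (h | h) | h
    · exact absurd h h0A
    · exact absurd h h0R
    · exact h
  have hq : q ≠ 0 := fun h => h0A (h ▸ hqA)
  have hq1 : ‖q‖ ≤ 1 := hA1 q hqA
  obtain ⟨o, hgo⟩ : ∃ o : Bool, ∀ x, g x = if o then v * (x - q) else v * (conj x - conj q) := by
    rcases hgx with h | h
    · refine ⟨true, fun x => ?_⟩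
      have h1 := h q
      rw [hq0] at h1
      simp only [if_true]
      rw [h]
      linear_combination -h1
    · refine ⟨false, fun x => ?_⟩
      have h1 := h q
      rw [hq0] at h1
      simp only [Bool.false_eq_true, if_false]
      rw [h]
      linear_combination -h1
  have hgn : ∀ x, ‖g x‖ = ‖x - q‖ := by
    intro x
    rw [hgo]
    split_ifs
    · rw [norm_mul, hv, one_mul]
    · rw [norm_mul, hv, one_mul, ← map_sub, Complex.norm_conj]
  have hinj : ∀ x y, g x = - g y → x - q = -(y - q) := by
    intro x y hxy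
    rw [hgo, hgo] at hxy
    have hv0 : v ≠ 0 := by
      intro h; rw [h, norm_zero] at hv; norm_num at hv
    split_ifs at hxy with ho
    · have : v * (x - q) = v * (-(y - q)) := by rw [hxy]; ring
      exact mul_left_cancel₀ hv0 this
    · have h1 : v * (conj x - conj q) = v * (-(conj y - conj q)) := by rw [hxy]; ring
      have h2 := congrArg conj (mul_left_cancel₀ hv0 h1)
      simpa [map_sub, map_neg, Complex.conj_conj] using h2
  have hopp : ∀ a : ℂ, ‖a‖ = 1 → a ∈ g '' A → -a ∈ g '' A → False := fun a ha h1 h2 =>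
    two_opp hA1 hq hgn hinj ha h1 h2
  rcases hRx with hRx | hRx
  · -- rotation
    by_cases hu1 : u = 1
    · refine Set.disjoint_left.1 d1 hqA ⟨q, hqA, ?_⟩
      rw [hRx, hu1, one_mul]
    by_cases hu2 : u = -1
    · -- half turn
      have hno : ∀ a : ℂ, ‖a‖ = 1 → a ∉ g '' A := by
        intro a ha h1
        apply hopp a ha h1
        rcases (hmem (-a)).2 (by rw [norm_neg, ha]) with (h | h) | h
        · exfalso
          refine Set.disjoint_left.1 d3 ⟨-a, h, ?_⟩ h1
          rw [hRx, hu2]; ring
        · exfalso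
          obtain ⟨a', ha', h⟩ := h
          rw [hRx, hu2] at h
          have : a' = a := by linear_combination -h
          exact Set.disjoint_left.1 d2 (this ▸ ha') h1
        · exact h
      set a : ℂ := Complex.I * (q / (‖q‖ : ℂ)) with ha
      have hqn : 0 < ‖q‖ := norm_pos_iff.2 hq
      have han : ‖a‖ = 1 := by
        rw [ha, norm_mul, Complex.norm_I, norm_div, Complex.norm_real,
          Real.norm_of_nonneg hqn.le, div_self hqn.ne', one_mul]
      have hr : ∀ s : ℝ, a * (s : ℂ) - q = (Complex.I * s / ‖q‖ - 1) * q := by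
        intro s
        rw [ha]
        ring
      have hrn : ∀ s : ℝ, s ^ 2 = 1 → 1 < ‖a * (s : ℂ) - q‖ := by
        intro s hs
        have h1 : ‖a * (s : ℂ) - q‖ ^ 2 = 1 + ‖q‖ ^ 2 := by
          rw [hr, norm_mul, mul_pow, ← Complex.normSq_eq_norm_sq (_ - 1), Complex.normSq_apply]
          have e1 : (Complex.I * (s : ℂ) / (‖q‖ : ℂ) - 1).re = -1 := by
            have : Complex.I * (s : ℂ) / (‖q‖ : ℂ) = ((s / ‖q‖ : ℝ) : ℂ) * Complex.I := by
              push_cast; ring
            rw [this]; simp
          have e2 : (Complex.I * (s : ℂ) / (‖q‖ : ℂ) - 1).im = s / ‖q‖ := by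
            have : Complex.I * (s : ℂ) / (‖q‖ : ℂ) = ((s / ‖q‖ : ℝ) : ℂ) * Complex.I := by
              push_cast; ring
            rw [this]; simp
          rw [e1, e2]
          field_simp
          rw [hs]
          ring
        nlinarith [norm_nonneg (a * (s : ℂ) - q)]
      rcases (hmem a).2 han.le with (h | h) | h
      · have h1 := hrn 1 (by norm_num)
        have h2 : ‖g a‖ ≤ 1 := (hmem _).1 (Or.inr ⟨a, h, rfl⟩)
        rw [hgn] at h2
        simp only [Complex.ofReal_one, mul_one] at h1
        linarith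
      · obtain ⟨a', ha', h⟩ := h
        rw [hRx, hu2] at h
        have h3 : a' = -a := by linear_combination -h
        have h1 := hrn (-1) (by norm_num)
        have h2 : ‖g a'‖ ≤ 1 := (hmem _).1 (Or.inr ⟨a', ha', rfl⟩)
        rw [hgn, h3] at h2
        simp only [Complex.ofReal_neg, Complex.ofReal_one, mul_neg, mul_one] at h1
        linarith
      · exact hno a han h
    · -- general rotation
      set b : ℝ := Complex.arg u with hb
      have hEb : E b = u := by
        have h2 := Complex.norm_mul_exp_arg_mul_I u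
        rw [hu] at h2
        simpa [E, hb] using h2
      have hbl : -Real.pi < b := Complex.neg_pi_lt_arg _
      have hbu : b ≤ Real.pi := Complex.arg_le_pi _
      have hb0 : b ≠ 0 := by
        intro h
        apply hu1
        rw [← hEb, h, E_zero]
      have hbpi : b ≠ Real.pi := by
        intro h
        apply hu2
        rw [← hEb, h, E, Complex.exp_pi_mul_I]
      rcases lt_or_gt_of_ne hb0 with hneg | hpos
      · -- negative angle
        have hRe : R = fun x => E b * x := by funext x; rw [hRx, hEb]
        have hq' : E b * q ≠ 0 := by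
          intro h
          apply hq
          rw [← norm_eq_zero, ← hRn, hRe]
          simpa using h
        have i1 : (fun x => E (-b) * x) '' (R '' A) = A := by
          rw [Set.image_image, hRe]
          have : (fun x => E (-b) * (E b * x)) = id := by
            funext x
            rw [← mul_assoc, E_neg_mul, one_mul]; rfl
          rw [this, Set.image_id]
        have i2 : (fun x => g (E (-b) * x)) '' (R '' A) = g '' A := by
          rw [Set.image_image, hRe]
          have : (fun x => g (E (-b) * (E b * x))) = g := by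
            funext x
            rw [← mul_assoc, E_neg_mul, one_mul]
          rw [this]
        refine core_pos H (b := -b) (A := R '' A) (o := o)
          (v := if o then v * E (-b) else v * E b) (q := E b * q) (by linarith) (by linarith)
          ?_ hq' ?_ (g := fun x => g (E (-b) * x)) ?_ ?_
        · split_ifs
          · rw [norm_mul, norm_E, hv, one_mul]
          · rw [norm_mul, norm_E, hv, one_mul]
        · rw [norm_mul, norm_E, one_mul]; exact hq1
        · intro x
          simp only [hgo]
          split_ifs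
          · linear_combination (v * q) * E_neg_mul b
          · rw [map_mul, map_mul, conj_E, conj_E, neg_neg]
            linear_combination (v * conj q) * E_mul_neg b
        · refine ⟨?_, ?_, ?_, ?_⟩
          · rw [i1, i2, Set.union_comm (R '' A) A, hc]
          · rw [i1]; exact d1.symm
          · rw [i2]; exact d3
          · rw [i1, i2]; exact d2
      · have hRe : R = fun x => E b * x := by funext x; rw [hRx, hEb]
        rw [hRe] at hc d1 d3
        exact core_pos H hpos (lt_of_le_of_ne hbu hbpi) hv hq hq1 hgo ⟨hc, d1, d2, d3⟩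
  · -- reflection
    set a : ℂ := E (Complex.arg u / 2) with ha
    have ha2 : a * a = u := by
      rw [ha, ← E_add, add_halves]
      have h2 := Complex.norm_mul_exp_arg_mul_I u
      rw [hu] at h2
      simpa [E] using h2
    have han : ‖a‖ = 1 := norm_E _
    have hca : conj a * a = 1 := conj_mul_of_norm han
    have hRa : R a = a := by
      rw [hRx, ← ha2]
      linear_combination a * hca
    have hRa' : R (-a) = -a := by
      rw [hRx, ← ha2, map_neg]
      linear_combination (-a) * hca
    have hRinj : ∀ x y, R x = R y → x = y := by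
      intro x y hxy
      rw [hRx, hRx] at hxy
      have hu0 : u ≠ 0 := by
        intro h; rw [h, norm_zero] at hu; norm_num at hu
      have h2 := congrArg conj (mul_left_cancel₀ hu0 hxy)
      simpa [Complex.conj_conj] using h2
    have hfix : ∀ z, ‖z‖ = 1 → R z = z → z ∈ g '' A := by
      intro z hz hRz
      rcases (hmem z).2 hz.le with (h | h) | h
      · exact absurd ⟨z, h, hRz⟩ (Set.disjoint_left.1 d1 h)
      · exfalso
        obtain ⟨z', hz', h'⟩ := h
        have : z' = z := hRinj _ _ (h'.trans hRz.symm)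
        rw [this] at hz'
        exact Set.disjoint_left.1 d1 hz' ⟨z, hz', hRz⟩
      · exact h
    exact hopp a han (hfix a han hRa) (hfix (-a) (by rw [norm_neg, han]) hRa')

end Pool.Agent.H908R3.Disc
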